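import Pool.Agent.Helper26.KC.StFM

set_option autoImplicit false

/-!
# FM-1 (project KS): `|Γ(s) cos(πs/2)| ≤ C (1+|t|)^(σ-1/2)` for `1/2 ≤ σ ≤ 3/2`
-/

open Complex Filter Topology Set
open scoped ComplexConjugate

namespace Pool.Agent.Helper73.KC

open Pool.Agent.Helper1.KSZ (FF norm_FF_half norm_Gamma_le norm_cos_le)

/-- the line `3/2` -/
theorem norm_FF_three_half (y : ℝ) :
    ‖FF (3 / 2 + y * I)‖ = ‖(1 / 2 + y * I : ℂ)‖ * ‖FF (1 / 2 + y * I)‖ := by
  unfold FF
  have h0 : (1 / 2 + y * I : ℂ) ≠ 0 := by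
    intro h
    have := congrArg Complex.re h
    simp at this
  have e1 : (3 / 2 + y * I : ℂ) = (1 / 2 + y * I) + 1 := by ring
  have e2 : Complex.cos (Real.pi * (3 / 2 + y * I) / 2) = -Complex.sin (Real.pi * (1 / 2 + y * I) / 2) := by
    rw [← Complex.cos_add_pi_div_two]
    congr 1
    ring
  have e3 : Complex.sin (Real.pi * (1 / 2 + y * I) / 2) =
      conj (Complex.cos (Real.pi * (1 / 2 + y * I) / 2)) := by
    rw [← Complex.cos_conj, ← Complex.cos_pi_div_two_sub]
    congr 1
    rw [map_div₀, map_mul, map_add, map_mul, Complex.conj_ofReal, Complex.conj_ofReal, Complex.conj_I,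
      map_div₀, map_one, Complex.conj_ofNat]
    ring
  have e4 : Complex.Gamma (3 / 2 + y * I) = (1 / 2 + y * I) * Complex.Gamma (1 / 2 + y * I) := by
    rw [e1, Complex.Gamma_add_one _ h0]
  rw [e2, e3, e4, norm_mul, norm_mul, norm_neg, Complex.norm_conj, norm_mul, mul_assoc]

theorem norm_FF_half' (y : ℝ) : ‖FF (1 / 2 + y * I)‖ = Real.sqrt (Real.pi / 2) := by
  rw [← norm_FF_half y, Real.sqrt_sq (norm_nonneg _)]

/-- FM-1 -/
theorem ffBound : Pool.Agent.Helper26.KC.FMff := by
  obtain ⟨G0, hG0⟩ : ∃ G0 : ℝ, ∀ x ∈ Icc (1 / 2 : ℝ) (3 / 2), Real.Gamma x ≤ G0 := by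
    have hcont : ContinuousOn Real.Gamma (Icc (1 / 2 : ℝ) (3 / 2)) := by
      intro x hx
      apply ContinuousAt.continuousWithinAt
      apply DifferentiableAt.continuousAt (𝕜 := ℝ)
      apply Real.differentiableAt_Gamma
      intro m hm
      have h1 : (0 : ℝ) < x := by linarith [hx.1]
      have h2 : (0 : ℝ) ≤ m := Nat.cast_nonneg m
      linarith
    obtain ⟨G0, hG0⟩ := (isCompact_Icc.image_of_continuousOn hcont).bddAbove
    exact ⟨G0, fun x hx => hG0 ⟨x, hx, rfl⟩⟩
  have hG0nn : 0 ≤ G0 := (Real.Gamma_pos_of_pos (by norm_num : (0 : ℝ) < 1)).le.trans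
    (hG0 1 ⟨by norm_num, by norm_num⟩)
  set K : ℝ := Real.sqrt (Real.pi / 2) with hK
  have hK0 : 0 < K := Real.sqrt_pos.2 (by positivity)
  refine ⟨5 * K, by positivity, fun σ t hσ1 hσ2 => ?_⟩
  set T : ℝ := 1 + |t| with hTdef
  have hT : 1 ≤ T := by have := abs_nonneg t; linarith
  have hT0 : 0 < T := by linarith
  set G : ℂ → ℂ := fun s => FF s * (T : ℂ) ^ (-(s - 1 / 2)) / (s - t * I + 1) with hG
  have hden : ∀ s : ℂ, 1 / 2 ≤ s.re → 3 / 2 ≤ ‖s - t * I + 1‖ := by
    intro s hs
    have h1 := Complex.abs_re_le_norm (s - t * I + 1)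
    have h2 : (s - t * I + 1).re = s.re + 1 := by simp
    rw [h2, abs_of_nonneg (by linarith)] at h1
    linarith
  have hTn : ∀ s : ℂ, ‖(T : ℂ) ^ (-(s - 1 / 2))‖ = T ^ (-(s.re - 1 / 2)) := by
    intro s
    rw [Complex.norm_cpow_eq_rpow_re_of_pos hT0]
    congr 1
    simp
  have hFdiff : ∀ s : ℂ, 0 < s.re → DifferentiableAt ℂ FF s := by
    intro s hs
    unfold FF
    refine DifferentiableAt.mul (Complex.differentiableAt_Gamma s (fun m hm => ?_)) ?_
    · have := congrArg Complex.re hm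
      simp at this
      have h2 : (0 : ℝ) ≤ m := Nat.cast_nonneg m
      linarith
    · fun_prop
  have hGdiff : ∀ s : ℂ, 1 / 2 ≤ s.re → DifferentiableAt ℂ G s := by
    intro s hs
    rw [hG]
    refine DifferentiableAt.div (DifferentiableAt.mul (hFdiff s (by linarith)) ?_) (by fun_prop) ?_
    · refine DifferentiableAt.const_cpow (by fun_prop) (Or.inl ?_)
      exact_mod_cast hT0.ne'
    · have := hden s hs
      intro h0
      rw [h0, norm_zero] at this
      linarith
  have key : ∀ s : ℂ, 1 / 2 ≤ s.re → s.re ≤ 3 / 2 → ‖G s‖ ≤ 2 * K := by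
    intro s hs1 hs2
    refine PhragmenLindelof.vertical_strip (a := 1 / 2) (b := 3 / 2) (f := G) (C := 2 * K)
      ?_ ?_ ?_ ?_ hs1 hs2
    · refine ⟨fun z hz => (hGdiff z hz.1.le).differentiableWithinAt, ?_⟩
      have hcl : closure (Complex.re ⁻¹' Ioo (1 / 2 : ℝ) (3 / 2)) ⊆ {z : ℂ | 1 / 2 ≤ z.re} := by
        apply closure_minimal (fun z hz => hz.1.le)
        exact isClosed_le continuous_const Complex.continuous_re
      exact fun z hz => (hGdiff z (hcl hz)).continuousAt.continuousWithinAt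
    · refine ⟨1, ?_, Real.pi / 2, ?_⟩
      · rw [lt_div_iff₀ (by norm_num)]
        linarith [Real.pi_gt_three]
      · refine Asymptotics.IsBigO.of_bound G0 ?_
        refine Filter.mem_inf_of_right ?_
        rw [Filter.mem_principal]
        intro z hz
        have hz1 : 1 / 2 < z.re := hz.1
        have hz2 : z.re < 3 / 2 := hz.2
        show ‖G z‖ ≤ G0 * ‖Real.exp (Real.pi / 2 * Real.exp (1 * |z.im|))‖
        rw [Real.norm_of_nonneg (Real.exp_pos _).le, one_mul]
        have h1 : ‖FF z‖ ≤ G0 * Real.exp (Real.pi / 2 * Real.exp |z.im|) := by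
          unfold FF
          rw [norm_mul]
          have h2 : ‖Complex.Gamma z‖ ≤ G0 :=
            (norm_Gamma_le (by linarith)).trans (hG0 _ ⟨hz1.le, hz2.le⟩)
          have h3 := norm_cos_le (Real.pi * z / 2)
          have h4 : ((Real.pi : ℂ) * z / 2).im = Real.pi / 2 * z.im := by
            rw [show (Real.pi : ℂ) * z / 2 = ((Real.pi / 2 : ℝ) : ℂ) * z by push_cast; ring]
            exact Complex.im_ofReal_mul _ _
          rw [h4, abs_mul, abs_of_nonneg (by positivity : 0 ≤ Real.pi / 2)] at h3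
          have h5 : Real.exp (Real.pi / 2 * |z.im|) ≤ Real.exp (Real.pi / 2 * Real.exp |z.im|) := by
            apply Real.exp_le_exp.2
            have := Real.add_one_le_exp |z.im|
            apply mul_le_mul_of_nonneg_left _ (by positivity)
            linarith
          calc _ ≤ G0 * Real.exp (Real.pi / 2 * |z.im|) := by gcongr
            _ ≤ _ := by gcongr
        have h6 : T ^ (-(z.re - 1 / 2)) ≤ 1 :=
          Real.rpow_le_one_of_one_le_of_nonpos hT (by linarith)
        have h7 := hden z hz1.le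
        rw [hG]
        show ‖FF z * (T : ℂ) ^ (-(z - 1 / 2)) / (z - t * I + 1)‖ ≤ _
        rw [norm_div, norm_mul, hTn, div_le_iff₀ (by linarith)]
        have h8 : 0 ≤ G0 * Real.exp (Real.pi / 2 * Real.exp |z.im|) := by positivity
        calc ‖FF z‖ * T ^ (-(z.re - 1 / 2)) ≤ (G0 * Real.exp (Real.pi / 2 * Real.exp |z.im|)) * 1 := by
              gcongr
          _ ≤ _ := by
              apply mul_le_mul_of_nonneg_left _ h8
              linarith
    · intro z hz
      have hz' : z = 1 / 2 + (z.im : ℂ) * I := by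
        apply Complex.ext
        · simp [hz]
        · simp
      have h1 : ‖FF z‖ = K := by
        have := norm_FF_half' z.im
        rwa [← hz'] at this
      have h7 := hden z (by rw [hz])
      rw [hG]
      show ‖FF z * (T : ℂ) ^ (-(z - 1 / 2)) / (z - t * I + 1)‖ ≤ _
      rw [norm_div, norm_mul, hTn, div_le_iff₀ (by linarith), h1, hz, sub_self, neg_zero,
        Real.rpow_zero]
      nlinarith
    · intro z hz
      have hz' : z = 3 / 2 + (z.im : ℂ) * I := by
        apply Complex.ext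
        · simp [hz]
        · simp
      have h1 : ‖FF z‖ ≤ (1 + |z.im|) * K := by
        have := norm_FF_three_half z.im
        rw [← hz', norm_FF_half'] at this
        rw [this]
        apply mul_le_mul_of_nonneg_right _ hK0.le
        refine (norm_add_le _ _).trans ?_
        have e1 : ‖(1 / 2 : ℂ)‖ = 1 / 2 := by norm_num
        rw [e1, norm_mul, Complex.norm_I, mul_one, Complex.norm_real, Real.norm_eq_abs]
        linarith
      rw [hG]
      show ‖FF z * (T : ℂ) ^ (-(z - 1 / 2)) / (z - t * I + 1)‖ ≤ _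
      have h7 := hden z (by rw [hz]; norm_num)
      rw [norm_div, norm_mul, hTn, div_le_iff₀ (by linarith), hz]
      have h3 : T ^ (-((3 / 2 : ℝ) - 1 / 2)) = T⁻¹ := by
        rw [show -((3 / 2 : ℝ) - 1 / 2) = -1 by norm_num, Real.rpow_neg_one]
      rw [h3]
      have h4 : 1 + |z.im| ≤ T * (1 + |z.im - t|) := by
        have h5 : |z.im| ≤ |z.im - t| + |t| := by
          have := abs_add_le (z.im - t) t
          rwa [sub_add_cancel] at this
        have h6 := mul_nonneg (abs_nonneg t) (abs_nonneg (z.im - t))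
        rw [hTdef]
        nlinarith
      have h8 : |z.im - t| ≤ ‖z - t * I + 1‖ := by
        have h1 := Complex.abs_im_le_norm (z - t * I + 1)
        have e2 : (z - t * I + 1).im = z.im - t := by simp
        rwa [e2] at h1
      have h9 : (1 + |z.im|) * T⁻¹ ≤ 1 + |z.im - t| := by
        rw [← div_eq_mul_inv, div_le_iff₀ hT0, mul_comm]
        exact h4
      have hTi : 0 ≤ T⁻¹ := inv_nonneg.2 hT0.le
      calc ‖FF z‖ * T⁻¹ ≤ ((1 + |z.im|) * K) * T⁻¹ := mul_le_mul_of_nonneg_right h1 hTi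
        _ = K * ((1 + |z.im|) * T⁻¹) := by ring
        _ ≤ K * (1 + |z.im - t|) := mul_le_mul_of_nonneg_left h9 hK0.le
        _ ≤ K * (2 * ‖z - t * I + 1‖) := by
            apply mul_le_mul_of_nonneg_left _ hK0.le
            linarith
        _ = _ := by ring
  have hfin := key ((σ : ℂ) + t * I) (by simpa using hσ1) (by simpa using hσ2)
  rw [hG] at hfin
  simp only at hfin
  have hre : ((σ : ℂ) + t * I).re = σ := by simp
  have hd1 : (σ : ℂ) + t * I - t * I + 1 = ((σ + 1 : ℝ) : ℂ) := by push_cast; ring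
  rw [norm_div, norm_mul, hTn, hre, hd1, Complex.norm_real, Real.norm_of_nonneg (by linarith),
    div_le_iff₀ (by linarith)] at hfin
  have hp : T ^ (-(σ - 1 / 2)) = (T ^ (σ - 1 / 2))⁻¹ := Real.rpow_neg hT0.le _
  rw [hp] at hfin
  have hpos : 0 < T ^ (σ - 1 / 2) := Real.rpow_pos_of_pos hT0 _
  have h9 : ‖FF ((σ : ℂ) + t * I)‖ =
      ‖FF ((σ : ℂ) + t * I)‖ * (T ^ (σ - 1 / 2))⁻¹ * T ^ (σ - 1 / 2) := by
    field_simp
  rw [h9]
  calc _ ≤ (2 * K * (σ + 1)) * T ^ (σ - 1 / 2) := mul_le_mul_of_nonneg_right hfin hpos.le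
    _ ≤ (5 * K) * T ^ (σ - 1 / 2) := by
        apply mul_le_mul_of_nonneg_right _ hpos.le
        nlinarith

end Pool.Agent.Helper73.KC
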