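import Pool.Agent.Helper73.KC.Energy
import Pool.Agent.Helper6.KSZ.MeanValue

/-! KC-8, final form. -/

set_option autoImplicit false

namespace Pool.Agent.Helper73.KC

theorem energyG : Pool.Agent.Helper60.KS.EnergyG :=
  energyG_of Pool.Agent.Helper6.KSZ.a12' Pool.Agent.Helper6.KSZ.a13

end Pool.Agent.Helper73.KC
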