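import Pool.Agent.Helper73.KC.LSum

/-! KC-8, part 4: decomposition of pairs `(n, n')` according to their reduced fraction. -/

set_option autoImplicit false
open MeasureTheory Complex

namespace Pool.Agent.Helper73.KC

open Pool.Agent.Helper60.KS (Spaced1 InStrip EZ)

/-- coprime pairs at scale `i` -/
def PP (N h i : ℕ) : Finset (ℕ × ℕ) :=
  ((Finset.Icc 1 N) ×ˢ (Finset.Icc 1 N)).filter (fun p => Nat.Coprime p.1 p.2 ∧
    p.1 ≤ h * p.2 ∧ p.2 ≤ h * p.1 ∧ Nat.log 2 (max p.1 p.2) = i)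

/-- all coprime pairs -/
def PA (N h : ℕ) : Finset (ℕ × ℕ) :=
  ((Finset.Icc 1 N) ×ˢ (Finset.Icc 1 N)).filter (fun p => Nat.Coprime p.1 p.2 ∧
    p.1 ≤ h * p.2 ∧ p.2 ≤ h * p.1)

def red (x : ℕ × ℕ) : ℕ × ℕ := (x.1 / Nat.gcd x.1 x.2, x.2 / Nat.gcd x.1 x.2)

lemma red_mem {Q h : ℕ} {x : ℕ × ℕ}
    (hx : x ∈ Finset.Ioc Q (h * Q) ×ˢ Finset.Ioc Q (h * Q)) : red x ∈ PA (h * Q) h := by
  rw [Finset.mem_product, Finset.mem_Ioc, Finset.mem_Ioc] at hx
  obtain ⟨⟨h1, h2⟩, h3, h4⟩ := hx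
  have hx1 : 0 < x.1 := by omega
  have hx2 : 0 < x.2 := by omega
  have hg : 0 < Nat.gcd x.1 x.2 := Nat.gcd_pos_of_pos_left _ hx1
  have e1 : Nat.gcd x.1 x.2 * (x.1 / Nat.gcd x.1 x.2) = x.1 := Nat.mul_div_cancel' (Nat.gcd_dvd_left _ _)
  have e2 : Nat.gcd x.1 x.2 * (x.2 / Nat.gcd x.1 x.2) = x.2 := Nat.mul_div_cancel' (Nat.gcd_dvd_right _ _)
  unfold PA red
  rw [Finset.mem_filter, Finset.mem_product, Finset.mem_Icc, Finset.mem_Icc]
  refine ⟨⟨⟨?_, ?_⟩, ?_, ?_⟩, ?_, ?_, ?_⟩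
  · exact Nat.div_pos (Nat.le_of_dvd hx1 (Nat.gcd_dvd_left _ _)) hg
  · exact (Nat.div_le_self _ _).trans h2
  · exact Nat.div_pos (Nat.le_of_dvd hx2 (Nat.gcd_dvd_right _ _)) hg
  · exact (Nat.div_le_self _ _).trans h4
  · exact Nat.coprime_div_gcd_div_gcd hg
  · refine Nat.le_of_mul_le_mul_left ?_ hg
    calc Nat.gcd x.1 x.2 * (x.1 / Nat.gcd x.1 x.2) = x.1 := e1
      _ ≤ h * Q := h2
      _ ≤ h * x.2 := Nat.mul_le_mul_left _ h3.le
      _ = h * (Nat.gcd x.1 x.2 * (x.2 / Nat.gcd x.1 x.2)) := by rw [e2]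
      _ = _ := by ring
  · refine Nat.le_of_mul_le_mul_left ?_ hg
    calc Nat.gcd x.1 x.2 * (x.2 / Nat.gcd x.1 x.2) = x.2 := e2
      _ ≤ h * Q := h4
      _ ≤ h * x.1 := Nat.mul_le_mul_left _ h1.le
      _ = h * (Nat.gcd x.1 x.2 * (x.1 / Nat.gcd x.1 x.2)) := by rw [e1]
      _ = _ := by ring

lemma fiber_card (Q h : ℕ) (p : ℕ × ℕ) (hp : p ∈ PA (h * Q) h) :
    (((Finset.Ioc Q (h * Q) ×ˢ Finset.Ioc Q (h * Q)).filter (fun x => red x = p)).card : ℝ) ≤
      ((h * Q : ℕ) : ℝ) / ((max p.1 p.2 : ℕ) : ℝ) := by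
  have hp1 : 1 ≤ p.1 := by
    have := (Finset.mem_filter.1 hp).1
    rw [Finset.mem_product, Finset.mem_Icc, Finset.mem_Icc] at this
    exact this.1.1
  have h1 : ((Finset.Ioc Q (h * Q) ×ˢ Finset.Ioc Q (h * Q)).filter (fun x => red x = p)).card ≤
      (Finset.Icc 1 (h * Q / max p.1 p.2)).card := by
    have key : ∀ x ∈ (Finset.Ioc Q (h * Q) ×ˢ Finset.Ioc Q (h * Q)).filter (fun x => red x = p),
        0 < Nat.gcd x.1 x.2 ∧ x.1 = Nat.gcd x.1 x.2 * p.1 ∧ x.2 = Nat.gcd x.1 x.2 * p.2 ∧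
        x.1 ≤ h * Q ∧ x.2 ≤ h * Q := by
      intro x hx
      rw [Finset.mem_filter, Finset.mem_product, Finset.mem_Ioc, Finset.mem_Ioc] at hx
      obtain ⟨⟨⟨h1, h2⟩, h3, h4⟩, h5⟩ := hx
      have hx1 : 0 < x.1 := by omega
      refine ⟨Nat.gcd_pos_of_pos_left _ hx1, ?_, ?_, h2, h4⟩
      · rw [← h5]
        exact (Nat.mul_div_cancel' (Nat.gcd_dvd_left _ _)).symm
      · rw [← h5]
        exact (Nat.mul_div_cancel' (Nat.gcd_dvd_right _ _)).symm
    refine Finset.card_le_card_of_injOn (fun x => Nat.gcd x.1 x.2) ?_ ?_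
    · intro x hx
      obtain ⟨h2, h3, h4, h5, h6⟩ := key x (by exact_mod_cast hx)
      simp only [Finset.coe_Icc, Set.mem_Icc]
      refine ⟨h2, ?_⟩
      rw [Nat.le_div_iff_mul_le (by omega)]
      rcases le_total p.1 p.2 with h7 | h7
      · rw [max_eq_right h7, ← h4]; exact h6
      · rw [max_eq_left h7, ← h3]; exact h5
    · intro x hx y hy hxy
      obtain ⟨h2, h3, h4, h5, h6⟩ := key x (by exact_mod_cast hx)
      obtain ⟨k2, k3, k4, k5, k6⟩ := key y (by exact_mod_cast hy)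
      simp only at hxy
      refine Prod.ext ?_ ?_
      · rw [h3, k3, hxy]
      · rw [h4, k4, hxy]
  have h2 : (Finset.Icc 1 (h * Q / max p.1 p.2)).card = h * Q / max p.1 p.2 := by simp
  rw [h2] at h1
  calc (((Finset.Ioc Q (h * Q) ×ˢ Finset.Ioc Q (h * Q)).filter (fun x => red x = p)).card : ℝ) ≤
      ((h * Q / max p.1 p.2 : ℕ) : ℝ) := by exact_mod_cast h1
    _ ≤ _ := Nat.cast_div_le

theorem gcd_decomp (φ : ℕ → ℕ → ℝ) (hφ0 : ∀ a b, 0 ≤ φ a b)
    (hφ : ∀ m a b, 1 ≤ m → 1 ≤ a → 1 ≤ b → φ (m * a) (m * b) = φ a b) (Q h : ℕ) :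
    ∑ n ∈ Finset.Ioc Q (h * Q), ∑ n' ∈ Finset.Ioc Q (h * Q), φ n n' ≤
      ∑ i ∈ Finset.range (Nat.log 2 (h * Q) + 1),
        (((h * Q : ℕ) : ℝ) / 2 ^ i) * ∑ p ∈ PP (h * Q) h i, φ p.1 p.2 := by
  classical
  rw [← Finset.sum_product (f := fun x => φ x.1 x.2),
    ← Finset.sum_fiberwise_of_maps_to (t := PA (h * Q) h) (g := red) (fun x hx => red_mem hx)]
  have h1 : ∀ p ∈ PA (h * Q) h,
      ∑ x ∈ (Finset.Ioc Q (h * Q) ×ˢ Finset.Ioc Q (h * Q)).filter (fun x => red x = p), φ x.1 x.2 ≤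
      (((h * Q : ℕ) : ℝ) / ((max p.1 p.2 : ℕ) : ℝ)) * φ p.1 p.2 := by
    intro p hp
    have h2 : ∀ x ∈ (Finset.Ioc Q (h * Q) ×ˢ Finset.Ioc Q (h * Q)).filter (fun x => red x = p),
        φ x.1 x.2 = φ p.1 p.2 := by
      intro x hx
      rw [Finset.mem_filter, Finset.mem_product, Finset.mem_Ioc, Finset.mem_Ioc] at hx
      obtain ⟨⟨⟨h1, h2⟩, h3, h4⟩, h5⟩ := hx
      have hx1 : 0 < x.1 := by omega
      have hx2 : 0 < x.2 := by omega
      have hg : 0 < Nat.gcd x.1 x.2 := Nat.gcd_pos_of_pos_left _ hx1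
      have e1 : Nat.gcd x.1 x.2 * p.1 = x.1 := by
        rw [← h5]
        exact Nat.mul_div_cancel' (Nat.gcd_dvd_left _ _)
      have e2 : Nat.gcd x.1 x.2 * p.2 = x.2 := by
        rw [← h5]
        exact Nat.mul_div_cancel' (Nat.gcd_dvd_right _ _)
      have hp1 : 1 ≤ p.1 := by
        by_contra hcon
        have : p.1 = 0 := by omega
        rw [this, mul_zero] at e1
        omega
      have hp2 : 1 ≤ p.2 := by
        by_contra hcon
        have : p.2 = 0 := by omega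
        rw [this, mul_zero] at e2
        omega
      have := hφ _ _ _ hg hp1 hp2
      rw [e1, e2] at this
      exact this
    rw [Finset.sum_congr rfl h2, Finset.sum_const, nsmul_eq_mul]
    exact mul_le_mul_of_nonneg_right (fiber_card Q h p hp) (hφ0 _ _)
  refine (Finset.sum_le_sum h1).trans ?_
  rw [← Finset.sum_fiberwise_of_maps_to (s := PA (h * Q) h) (t := Finset.range (Nat.log 2 (h * Q) + 1))
    (g := fun p => Nat.log 2 (max p.1 p.2)) (fun p hp => by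
      rw [Finset.mem_range, Nat.lt_succ_iff]
      refine Nat.log_mono_right ?_
      have := (Finset.mem_filter.1 hp).1
      rw [Finset.mem_product, Finset.mem_Icc, Finset.mem_Icc] at this
      exact max_le this.1.2 this.2.2)]
  refine Finset.sum_le_sum fun i _ => ?_
  have h2 : (PA (h * Q) h).filter (fun p => Nat.log 2 (max p.1 p.2) = i) = PP (h * Q) h i := by
    unfold PA PP
    rw [Finset.filter_filter]
    refine Finset.filter_congr fun p _ => ?_
    tauto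
  rw [h2, Finset.mul_sum]
  refine Finset.sum_le_sum fun p hp => ?_
  refine mul_le_mul_of_nonneg_right ?_ (hφ0 _ _)
  have hp' := (Finset.mem_filter.1 hp)
  rw [Finset.mem_product, Finset.mem_Icc, Finset.mem_Icc] at hp'
  have h3 : 2 ^ i ≤ max p.1 p.2 := by
    rw [← hp'.2.2.2.2]
    refine Nat.pow_log_le_self 2 ?_
    have := le_max_left p.1 p.2
    omega
  refine div_le_div_of_nonneg_left (by positivity) (by positivity) ?_
  exact_mod_cast h3

/-- value of the logarithm of the ratio -/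
noncomputable def lr (p : ℕ × ℕ) : ℝ := Real.log p.1 - Real.log p.2

lemma log_sub_log_ge {m n M : ℕ} (hn : 0 < n) (hnm : n < m) (hm : m ≤ M) :
    1 / (M : ℝ) ≤ Real.log m - Real.log n := by
  have hm0 : (0 : ℝ) < m := by exact_mod_cast (by omega : 0 < m)
  have hn0 : (0 : ℝ) < n := by exact_mod_cast hn
  rw [← Real.log_div hm0.ne' hn0.ne']
  have h1 := Real.one_sub_inv_le_log_of_pos (x := (m : ℝ) / n) (by positivity)
  refine le_trans ?_ h1
  rw [inv_div]
  have h2 : 1 - (n : ℝ) / m = ((m : ℝ) - n) / m := by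
    field_simp
  rw [h2]
  have h3 : (1 : ℝ) ≤ (m : ℝ) - n := by
    have : ((n + 1 : ℕ) : ℝ) ≤ m := by exact_mod_cast hnm
    push_cast at this
    linarith
  have h4 : (m : ℝ) ≤ M := by exact_mod_cast hm
  calc 1 / (M : ℝ) ≤ 1 / (m : ℝ) := one_div_le_one_div_of_le hm0 h4
    _ ≤ ((m : ℝ) - n) / m := div_le_div_of_nonneg_right h3 hm0.le

lemma lr_spaced {N h i : ℕ} {p q : ℕ × ℕ} (hp : p ∈ PP N h i) (hq : q ∈ PP N h i) (hpq : p ≠ q) :
    1 / (4 * 4 ^ i : ℝ) ≤ |lr p - lr q| := by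
  have hp' := (Finset.mem_filter.1 hp)
  have hq' := (Finset.mem_filter.1 hq)
  rw [Finset.mem_product, Finset.mem_Icc, Finset.mem_Icc] at hp' hq'
  obtain ⟨⟨⟨p1, _⟩, p2, _⟩, pc, _, _, pl⟩ := hp'
  obtain ⟨⟨⟨q1, _⟩, q2, _⟩, qc, _, _, ql⟩ := hq'
  have hpm : max p.1 p.2 < 2 ^ (i + 1) := by
    rw [← pl]
    exact Nat.lt_pow_succ_log_self (by norm_num) _
  have hqm : max q.1 q.2 < 2 ^ (i + 1) := by
    rw [← ql]
    exact Nat.lt_pow_succ_log_self (by norm_num) _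
  have hp1 : p.1 < 2 ^ (i + 1) := lt_of_le_of_lt (le_max_left _ _) hpm
  have hp2 : p.2 < 2 ^ (i + 1) := lt_of_le_of_lt (le_max_right _ _) hpm
  have hq1 : q.1 < 2 ^ (i + 1) := lt_of_le_of_lt (le_max_left _ _) hqm
  have hq2 : q.2 < 2 ^ (i + 1) := lt_of_le_of_lt (le_max_right _ _) hqm
  have hne : p.1 * q.2 ≠ q.1 * p.2 := by
    intro heq
    apply hpq
    have h1 : p.1 ∣ q.1 * p.2 := ⟨q.2, heq.symm⟩
    have h2 : p.1 ∣ q.1 := pc.dvd_of_dvd_mul_right h1
    have h3 : q.1 ∣ p.1 * q.2 := ⟨p.2, heq⟩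
    have h4 : q.1 ∣ p.1 := qc.dvd_of_dvd_mul_right h3
    have h5 : p.1 = q.1 := Nat.dvd_antisymm h2 h4
    refine Prod.ext h5 ?_
    rw [h5] at heq
    exact (Nat.eq_of_mul_eq_mul_left (by omega) heq).symm
  have hb1 : p.1 * q.2 ≤ 4 * 4 ^ i := by
    calc p.1 * q.2 ≤ 2 ^ (i + 1) * 2 ^ (i + 1) := Nat.mul_le_mul hp1.le hq2.le
      _ = 4 * 4 ^ i := by rw [← mul_pow]; ring
  have hb2 : q.1 * p.2 ≤ 4 * 4 ^ i := by
    calc q.1 * p.2 ≤ 2 ^ (i + 1) * 2 ^ (i + 1) := Nat.mul_le_mul hq1.le hp2.le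
      _ = 4 * 4 ^ i := by rw [← mul_pow]; ring
  have cp1 : (p.1 : ℝ) ≠ 0 := by exact_mod_cast (by omega : p.1 ≠ 0)
  have cp2 : (p.2 : ℝ) ≠ 0 := by exact_mod_cast (by omega : p.2 ≠ 0)
  have cq1 : (q.1 : ℝ) ≠ 0 := by exact_mod_cast (by omega : q.1 ≠ 0)
  have cq2 : (q.2 : ℝ) ≠ 0 := by exact_mod_cast (by omega : q.2 ≠ 0)
  have hlr : lr p - lr q = Real.log ((p.1 * q.2 : ℕ) : ℝ) - Real.log ((q.1 * p.2 : ℕ) : ℝ) := by
    unfold lr
    push_cast
    rw [Real.log_mul cp1 cq2, Real.log_mul cq1 cp2]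
    ring
  rw [hlr]
  rcases lt_or_gt_of_ne hne with hlt | hgt
  · have := log_sub_log_ge (Nat.mul_pos (by omega) (by omega)) hlt hb2
    push_cast at this ⊢
    rw [abs_sub_comm]
    exact this.trans (le_abs_self _)
  · have := log_sub_log_ge (Nat.mul_pos (by omega) (by omega)) hgt hb1
    push_cast at this ⊢
    exact this.trans (le_abs_self _)

lemma lr_abs {N h i : ℕ} (hh : 1 ≤ h) {p : ℕ × ℕ} (hp : p ∈ PP N h i) : |lr p| ≤ h := by
  have hp' := (Finset.mem_filter.1 hp)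
  rw [Finset.mem_product, Finset.mem_Icc, Finset.mem_Icc] at hp'
  obtain ⟨⟨⟨p1, _⟩, p2, _⟩, pc, h1, h2, pl⟩ := hp'
  have cp1 : (0 : ℝ) < p.1 := by exact_mod_cast p1
  have cp2 : (0 : ℝ) < p.2 := by exact_mod_cast p2
  have ch : (0 : ℝ) < h := by exact_mod_cast hh
  have hlog : Real.log h ≤ h := (Real.log_le_sub_one_of_pos ch).trans (by linarith)
  have e1 : Real.log p.1 ≤ Real.log h + Real.log p.2 := by
    rw [← Real.log_mul ch.ne' cp2.ne']
    exact Real.log_le_log cp1 (by exact_mod_cast h1)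
  have e2 : Real.log p.2 ≤ Real.log h + Real.log p.1 := by
    rw [← Real.log_mul ch.ne' cp1.ne']
    exact Real.log_le_log cp2 (by exact_mod_cast h2)
  unfold lr
  rw [abs_le]
  constructor <;> linarith

lemma PP_card (N h i : ℕ) : (PP N h i).card ≤ 4 * 4 ^ i := by
  have h1 : PP N h i ⊆ Finset.range (2 ^ (i + 1)) ×ˢ Finset.range (2 ^ (i + 1)) := by
    intro p hp
    have hp' := (Finset.mem_filter.1 hp)
    have hpm : max p.1 p.2 < 2 ^ (i + 1) := by
      rw [← hp'.2.2.2.2]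
      exact Nat.lt_pow_succ_log_self (by norm_num) _
    rw [Finset.mem_product, Finset.mem_range, Finset.mem_range]
    exact ⟨lt_of_le_of_lt (le_max_left _ _) hpm, lt_of_le_of_lt (le_max_right _ _) hpm⟩
  refine (Finset.card_le_card h1).trans (le_of_eq ?_)
  rw [Finset.card_product, Finset.card_range, ← mul_pow]
  ring

/-- the third moment over all pairs -/
theorem third_total (h13 : Pool.Agent.Helper10.KSZ.A13) (h : ℕ) (hh : 1 ≤ h) : ∃ C : ℝ, 0 < C ∧
    ∀ (Z : Finset ℂ) (Q : ℕ) (T : ℝ), 1 ≤ Q → 1 ≤ T → (∀ ρ ∈ Z, |ρ.im| ≤ T) → Spaced1 Z →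
    ∑ n ∈ Finset.Ioc Q (h * Q), ∑ n' ∈ Finset.Ioc Q (h * Q),
      ‖WW Z (Real.log n - Real.log n')‖ ^ 3 ≤
      C * (1 + Real.log Q) * Real.sqrt (EZ Z) *
        ((Q : ℝ) ^ 2 * Real.sqrt Z.card + Q * Z.card * Real.sqrt T) := by
  classical
  obtain ⟨C, hC, hm⟩ := third_moment h13
  have ch : (1 : ℝ) ≤ h := by exact_mod_cast hh
  refine ⟨C * h * h * (2 * h + 2), by positivity, fun Z Q T hQ hT hZ hsp => ?_⟩
  have cQ : (1 : ℝ) ≤ Q := by exact_mod_cast hQ
  set n : ℝ := (Z.card : ℝ) with hn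
  set E : ℝ := (EZ Z : ℝ) with hE
  have hn0 : 0 ≤ n := by positivity
  have hE0 : 0 ≤ E := by positivity
  -- decomposition
  have h1 := gcd_decomp (fun a b => ‖WW Z (Real.log a - Real.log b)‖ ^ 3) (fun a b => by positivity)
    (fun m a b hm ha hb => by
      have e1 : (m : ℝ) ≠ 0 := by exact_mod_cast (by omega : m ≠ 0)
      have e2 : (a : ℝ) ≠ 0 := by exact_mod_cast (by omega : a ≠ 0)
      have e3 : (b : ℝ) ≠ 0 := by exact_mod_cast (by omega : b ≠ 0)
      have : Real.log ((m * a : ℕ) : ℝ) - Real.log ((m * b : ℕ) : ℝ) = Real.log a - Real.log b := by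
        push_cast
        rw [Real.log_mul e1 e2, Real.log_mul e1 e3]
        ring
      simp only [this]) Q h
  refine h1.trans ?_
  -- each scale
  have h2 : ∀ i, ∑ p ∈ PP (h * Q) h i, ‖WW Z (Real.log p.1 - Real.log p.2)‖ ^ 3 ≤
      C * h * (4 ^ i * Real.sqrt (n * E) + 2 ^ i * n * Real.sqrt (T * E)) := by
    intro i
    have hinj : Set.InjOn lr (PP (h * Q) h i : Set (ℕ × ℕ)) := by
      intro p hp q hq hpq
      by_contra hne
      have := lr_spaced (by exact_mod_cast hp) (by exact_mod_cast hq) hne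
      rw [hpq, sub_self, abs_zero] at this
      have h3 : (0 : ℝ) < 1 / (4 * 4 ^ i) := by positivity
      linarith
    have h3 := hm Z ((PP (h * Q) h i).image lr) h T i ch hT hZ hsp ?_ ?_ ?_
    · rw [Finset.sum_image hinj] at h3
      exact h3
    · intro y hy
      obtain ⟨p, hp, rfl⟩ := Finset.mem_image.1 hy
      exact lr_abs hh hp
    · intro y hy y' hy' hyy
      obtain ⟨p, hp, rfl⟩ := Finset.mem_image.1 hy
      obtain ⟨q, hq, rfl⟩ := Finset.mem_image.1 hy'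
      refine lr_spaced hp hq ?_
      rintro rfl
      exact hyy rfl
    · have h4 : ((PP (h * Q) h i).image lr).card ≤ 4 * 4 ^ i :=
        Finset.card_image_le.trans (PP_card _ _ _)
      exact_mod_cast h4
  set N : ℕ := h * Q with hN
  set I : ℕ := Nat.log 2 N with hI
  have hN1 : 1 ≤ N := by
    rw [hN]
    exact Nat.mul_pos (by omega) (by omega)
  have cN : ((N : ℕ) : ℝ) = h * Q := by rw [hN]; push_cast; ring
  have hN0 : (0 : ℝ) ≤ N := by positivity
  have hs1 : 0 ≤ Real.sqrt (n * E) := Real.sqrt_nonneg _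
  have hs2 : 0 ≤ Real.sqrt (T * E) := Real.sqrt_nonneg _
  -- sum over the scales
  have h3 : ∑ i ∈ Finset.range (I + 1), ((N : ℝ) / 2 ^ i) *
      ∑ p ∈ PP N h i, ‖WW Z (Real.log p.1 - Real.log p.2)‖ ^ 3 ≤
      ∑ i ∈ Finset.range (I + 1), C * h * N * (2 ^ i * Real.sqrt (n * E) + n * Real.sqrt (T * E)) := by
    refine Finset.sum_le_sum fun i _ => ?_
    calc ((N : ℝ) / 2 ^ i) * ∑ p ∈ PP N h i, ‖WW Z (Real.log p.1 - Real.log p.2)‖ ^ 3 ≤
        ((N : ℝ) / 2 ^ i) * (C * h * (4 ^ i * Real.sqrt (n * E) + 2 ^ i * n * Real.sqrt (T * E))) :=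
          mul_le_mul_of_nonneg_left (h2 i) (by positivity)
      _ = C * h * N * (2 ^ i * Real.sqrt (n * E) + n * Real.sqrt (T * E)) := by
          have h4 : (4 : ℝ) ^ i = 2 ^ i * 2 ^ i := by
            rw [← mul_pow]; norm_num
          rw [h4]
          have h5 : (2 : ℝ) ^ i ≠ 0 := by positivity
          field_simp
  refine h3.trans ?_
  have h4 : ∑ i ∈ Finset.range (I + 1), (2 : ℝ) ^ i ≤ 2 * N := by
    rw [geom_sum_eq (by norm_num)]
    have h5 : (2 : ℝ) ^ I ≤ N := by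
      exact_mod_cast Nat.pow_log_le_self 2 (by omega : N ≠ 0)
    rw [pow_succ]
    have : ((2 : ℝ) ^ I * 2 - 1) / (2 - 1) = 2 ^ I * 2 - 1 := by norm_num
    rw [this]
    linarith
  have hlogN : ((I + 1 : ℕ) : ℝ) ≤ (2 * h + 2) * (1 + Real.log Q) := by
    have h5 : (2 : ℝ) ^ I ≤ N := by
      exact_mod_cast Nat.pow_log_le_self 2 (by omega : N ≠ 0)
    have h6 : (I : ℝ) * Real.log 2 ≤ Real.log N := by
      rw [← Real.log_pow]
      exact Real.log_le_log (by positivity) h5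
    have h7 : Real.log N = Real.log h + Real.log Q := by
      rw [cN, Real.log_mul (by positivity) (by positivity)]
    have h8 : Real.log h ≤ h := (Real.log_le_sub_one_of_pos (by linarith)).trans (by linarith)
    have h9 : (1 / 2 : ℝ) < Real.log 2 := by linarith [Real.log_two_gt_d9]
    have h10 : 0 ≤ Real.log Q := Real.log_nonneg cQ
    have h11 : (I : ℝ) ≤ 2 * (h + Real.log Q) := by
      have : (0 : ℝ) ≤ I := by positivity
      nlinarith
    push_cast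
    nlinarith
  calc ∑ i ∈ Finset.range (I + 1), C * h * N * (2 ^ i * Real.sqrt (n * E) + n * Real.sqrt (T * E))
      = C * h * N * ((∑ i ∈ Finset.range (I + 1), (2 : ℝ) ^ i) * Real.sqrt (n * E) +
          ((I + 1 : ℕ) : ℝ) * (n * Real.sqrt (T * E))) := by
        rw [← Finset.mul_sum, Finset.sum_add_distrib, Finset.sum_mul, Finset.sum_const,
          Finset.card_range, nsmul_eq_mul]
    _ ≤ C * h * N * ((2 * N) * Real.sqrt (n * E) +
          ((2 * h + 2) * (1 + Real.log Q)) * (n * Real.sqrt (T * E))) := by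
        refine mul_le_mul_of_nonneg_left ?_ (by positivity)
        exact add_le_add (mul_le_mul_of_nonneg_right h4 hs1)
          (mul_le_mul_of_nonneg_right hlogN (by positivity))
    _ ≤ C * h * h * (2 * h + 2) * (1 + Real.log Q) * Real.sqrt E *
        ((Q : ℝ) ^ 2 * Real.sqrt n + Q * n * Real.sqrt T) := by
        rw [cN, Real.sqrt_mul hn0, Real.sqrt_mul (by linarith)]
        have h10 : 0 ≤ Real.log Q := Real.log_nonneg cQ
        set a := Real.sqrt n with ha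
        set e := Real.sqrt E with he
        set τ := Real.sqrt T with hτ
        have ha0 : 0 ≤ a := Real.sqrt_nonneg _
        have he0 : 0 ≤ e := Real.sqrt_nonneg _
        have hτ0 : 0 ≤ τ := Real.sqrt_nonneg _
        have e1 : C * h * (h * Q) * (2 * (h * Q) * (a * e) +
            (2 * h + 2) * (1 + Real.log Q) * (n * (τ * e))) =
            C * h * h * (2 * h) * 1 * e * ((Q : ℝ) ^ 2 * a) +
            C * h * h * (2 * h + 2) * (1 + Real.log Q) * e * (Q * n * τ) := by ring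
        have e2 : C * h * h * (2 * h) * 1 * e * ((Q : ℝ) ^ 2 * a) ≤
            C * h * h * (2 * h + 2) * (1 + Real.log Q) * e * ((Q : ℝ) ^ 2 * a) := by
          gcongr
          · linarith
          · linarith
        rw [e1, mul_add]
        linarith

end Pool.Agent.Helper73.KC
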