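import Pool.Agent.Helper10.KSZ.St
import Pool.Agent.Helper60.KS.St

/-! KC-8, part 2: subharmonicity against a family of Gaussians. -/

set_option autoImplicit false
open MeasureTheory Complex

namespace Pool.Agent.Helper73.KC

open Pool.Agent.Helper60.KS (Spaced1 InStrip)

lemma norm_shift (σ t a : ℝ) :
    ‖cexp (((σ : ℂ) + t * I - I * a) ^ 2 / 2)‖ ^ 2 = Real.exp (σ ^ 2 - (t - a) ^ 2) := by
  rw [Complex.norm_exp, ← Real.exp_nat_mul]
  congr 1
  have h1 : ((σ : ℂ) + t * I - I * a) ^ 2 / 2 =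
      (((σ ^ 2 - (t - a) ^ 2) / 2 : ℝ) : ℂ) + ((σ * (t - a) : ℝ) : ℂ) * I := by
    have := Complex.I_sq
    push_cast
    linear_combination (((t : ℂ) - a) ^ 2 / 2) * this
  have h2 : ∀ x y : ℝ, ((x : ℂ) + (y : ℂ) * I).re = x := fun x y => by simp
  rw [h1, h2]
  push_cast
  ring

theorem stepA (h12 : Pool.Agent.Helper10.KSZ.A12') {G : ℂ → ℂ} (hG : Differentiable ℂ G)
    (Z : Finset ℂ) {b b' T r M : ℝ} (hr : 0 < r) (hr2 : r ≤ 1 / 2) (hb0 : 0 ≤ b) (hbb : b ≤ b')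
    (hb1 : b' ≤ 1) (hT : 0 ≤ T) (hZ : InStrip Z b b' T) (hsp : Spaced1 Z)
    {κ : Type*} (P : Finset κ) (a : κ → ℝ)
    (hint : ∀ σ : ℝ, Integrable (fun t : ℝ =>
      (∑ p ∈ P, Real.exp (-(t - a p) ^ 2)) * ‖G (σ + t * I)‖ ^ 2))
    (hM : ∀ σ : ℝ, b - r ≤ σ → σ ≤ b' + r → ∫ t : ℝ,
      (∑ p ∈ P, Real.exp (-(t - a p) ^ 2)) * ‖G (σ + t * I)‖ ^ 2 ≤ M) :
    ∑ ρ ∈ Z, ((P.filter (fun p => |ρ.im - a p| ≤ 1)).card : ℝ) * ‖G ρ‖ ^ 2 ≤
      2 * Real.exp 4 / r ^ 2 * M := by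
  set F : κ → ℂ → ℂ := fun p w => G w * cexp ((w - I * a p) ^ 2 / 2) with hF
  have hFd : ∀ p, Differentiable ℂ (F p) := by
    intro p
    refine hG.mul (Differentiable.cexp ?_)
    exact ((differentiable_id.sub_const _).pow 2).div_const 2
  have hFn : ∀ p (σ t : ℝ), ‖F p (σ + t * I)‖ ^ 2 =
      Real.exp (σ ^ 2) * (Real.exp (-(t - a p) ^ 2) * ‖G (σ + t * I)‖ ^ 2) := by
    intro p σ t
    rw [hF]
    simp only
    rw [norm_mul, mul_pow, norm_shift, show σ ^ 2 - (t - a p) ^ 2 = σ ^ 2 + (-(t - a p) ^ 2) by ring,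
      Real.exp_add]
    ring
  -- nonnegativity of M
  have hM0 : 0 ≤ M := by
    refine le_trans ?_ (hM b (by linarith) (by linarith))
    refine integral_nonneg fun t => ?_
    refine mul_nonneg (Finset.sum_nonneg fun p _ => (Real.exp_pos _).le) (by positivity)
  -- step 1: from G to F
  have h1 : ∀ ρ ∈ Z, ((P.filter (fun p => |ρ.im - a p| ≤ 1)).card : ℝ) * ‖G ρ‖ ^ 2 ≤
      Real.exp 1 * ∑ p ∈ P, ‖F p ρ‖ ^ 2 := by
    intro ρ _
    rw [← nsmul_eq_mul, ← Finset.sum_const, Finset.mul_sum]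
    refine (Finset.sum_le_sum (g := fun p => Real.exp 1 * ‖F p ρ‖ ^ 2) fun p hp => ?_).trans
      (Finset.sum_le_sum_of_subset_of_nonneg (Finset.filter_subset _ _) fun p _ _ => by positivity)
    have hp1 := (Finset.mem_filter.1 hp).2
    have h2 := hFn p ρ.re ρ.im
    rw [Complex.re_add_im] at h2
    rw [h2]
    have h3 : 1 ≤ Real.exp 1 * (Real.exp (ρ.re ^ 2) * Real.exp (-(ρ.im - a p) ^ 2)) := by
      rw [← Real.exp_add, ← Real.exp_add, Real.one_le_exp_iff]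
      have : (ρ.im - a p) ^ 2 ≤ 1 := by
        rw [← sq_abs]
        nlinarith [abs_nonneg (ρ.im - a p)]
      nlinarith [sq_nonneg ρ.re]
    have h4 : 0 ≤ ‖G ρ‖ ^ 2 := by positivity
    calc ‖G ρ‖ ^ 2 = 1 * ‖G ρ‖ ^ 2 := (one_mul _).symm
      _ ≤ (Real.exp 1 * (Real.exp (ρ.re ^ 2) * Real.exp (-(ρ.im - a p) ^ 2))) * ‖G ρ‖ ^ 2 :=
          mul_le_mul_of_nonneg_right h3 h4
      _ = _ := by ring
  -- step 2: area mean
  set σ₁ := b - r / 2 with hσ₁
  set σ₂ := b' + r / 2 with hσ₂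
  set t₁ := -T - r / 2 with ht₁
  set t₂ := T + r / 2 with ht₂
  have h12' : σ₁ ≤ σ₂ := by rw [hσ₁, hσ₂]; linarith
  have ht12 : t₁ ≤ t₂ := by rw [ht₁, ht₂]; linarith
  have h2 : ∀ p, ∑ ρ ∈ Z, ‖F p ρ‖ ^ 2 ≤
      1 / (Real.pi * (r / 2) ^ 2) * ∫ σ in σ₁..σ₂, ∫ t in t₁..t₂, ‖F p (σ + t * I)‖ ^ 2 := by
    intro p
    refine h12 (F p) (hFd p) Z (r / 2) σ₁ σ₂ t₁ t₂ (by linarith) h12' ht12 ?_ ?_
    · intro z hz w hw hzw
      have h3 := hsp z hz w hw hzw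
      have h4 : |z.im - w.im| ≤ dist z w := by
        rw [Complex.dist_eq, ← Complex.sub_im]
        exact Complex.abs_im_le_norm _
      linarith
    · intro z hz
      obtain ⟨h3, h4, h5⟩ := hZ z hz
      rw [abs_le] at h5
      refine ⟨?_, ?_, ?_, ?_⟩ <;> simp only [hσ₁, hσ₂, ht₁, ht₂] <;> linarith [h5.1, h5.2]
  -- continuity
  have hcont : ∀ p, Continuous (Function.uncurry fun (σ t : ℝ) => ‖F p (σ + t * I)‖ ^ 2) := by
    intro p
    have h3 : Continuous (F p) := (hFd p).continuous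
    have h4 : Continuous (fun x : ℝ × ℝ => ((x.1 : ℂ) + x.2 * I)) := by fun_prop
    have h5 : (Function.uncurry fun (σ t : ℝ) => ‖F p (σ + t * I)‖ ^ 2) =
        fun x : ℝ × ℝ => ‖F p ((x.1 : ℂ) + x.2 * I)‖ ^ 2 := by
      funext x
      rfl
    rw [h5]
    exact ((h3.comp h4).norm).pow 2
  have hcont1 : ∀ p, Continuous (fun σ : ℝ => ∫ t in t₁..t₂, ‖F p (σ + t * I)‖ ^ 2) := fun p =>
    intervalIntegral.continuous_parametric_intervalIntegral_of_continuous' (hcont p) _ _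
  have hcont2 : ∀ p (σ : ℝ), Continuous (fun t : ℝ => ‖F p (σ + t * I)‖ ^ 2) := by
    intro p σ
    have h3 : Continuous (F p) := (hFd p).continuous
    have h4 : Continuous (fun t : ℝ => ((σ : ℂ) + t * I)) := by fun_prop
    exact ((h3.comp h4).norm).pow 2
  -- the inner bound
  have hinner : ∀ σ : ℝ, b - r ≤ σ → σ ≤ b' + r →
      ∑ p ∈ P, ∫ t in t₁..t₂, ‖F p (σ + t * I)‖ ^ 2 ≤ Real.exp (9 / 4) * M := by
    intro σ hs1 hs2
    rw [← intervalIntegral.integral_finsetSum fun p _ => (hcont2 p σ).intervalIntegrable _ _]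
    have h3 : (fun t : ℝ => ∑ p ∈ P, ‖F p (σ + t * I)‖ ^ 2) = fun t : ℝ => Real.exp (σ ^ 2) *
        ((∑ p ∈ P, Real.exp (-(t - a p) ^ 2)) * ‖G (σ + t * I)‖ ^ 2) := by
      funext t
      rw [Finset.sum_mul, Finset.mul_sum]
      exact Finset.sum_congr rfl fun p _ => hFn p σ t
    rw [h3, intervalIntegral.integral_const_mul, intervalIntegral.integral_of_le ht12]
    have h4 : ∫ t in Set.Ioc t₁ t₂, (∑ p ∈ P, Real.exp (-(t - a p) ^ 2)) * ‖G (σ + t * I)‖ ^ 2 ≤ M := by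
      refine le_trans (setIntegral_le_integral (hint σ) (Filter.Eventually.of_forall fun t => ?_))
        (hM σ hs1 hs2)
      exact mul_nonneg (Finset.sum_nonneg fun p _ => (Real.exp_pos _).le) (by positivity)
    have h5 : Real.exp (σ ^ 2) ≤ Real.exp (9 / 4) := by
      rw [Real.exp_le_exp]
      have h6 : |σ| ≤ 3 / 2 := by
        rw [abs_le]
        constructor <;> linarith
      calc σ ^ 2 = |σ| ^ 2 := (sq_abs σ).symm
        _ ≤ (3 / 2) ^ 2 := pow_le_pow_left₀ (abs_nonneg _) h6 2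
        _ = 9 / 4 := by norm_num
    calc Real.exp (σ ^ 2) * ∫ t in Set.Ioc t₁ t₂,
          (∑ p ∈ P, Real.exp (-(t - a p) ^ 2)) * ‖G (σ + t * I)‖ ^ 2 ≤
        Real.exp (σ ^ 2) * M := mul_le_mul_of_nonneg_left h4 (Real.exp_pos _).le
      _ ≤ _ := mul_le_mul_of_nonneg_right h5 hM0
  -- the double integral
  have houter : ∑ p ∈ P, ∫ σ in σ₁..σ₂, ∫ t in t₁..t₂, ‖F p (σ + t * I)‖ ^ 2 ≤
      Real.exp (9 / 4) * M * (3 / 2) := by
    rw [← intervalIntegral.integral_finsetSum fun p _ => (hcont1 p).intervalIntegrable _ _]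
    have h3 := intervalIntegral.norm_integral_le_of_norm_le_const (a := σ₁) (b := σ₂)
      (f := fun σ : ℝ => ∑ p ∈ P, ∫ t in t₁..t₂, ‖F p (σ + t * I)‖ ^ 2)
      (C := Real.exp (9 / 4) * M) (fun σ hσ => by
        rw [Set.uIoc_of_le h12'] at hσ
        have h4 : 0 ≤ ∑ p ∈ P, ∫ t in t₁..t₂, ‖F p (σ + t * I)‖ ^ 2 :=
          Finset.sum_nonneg fun p _ => intervalIntegral.integral_nonneg ht12 fun t _ => by positivity
        rw [Real.norm_of_nonneg h4]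
        refine hinner σ ?_ ?_
        · have := hσ.1
          rw [hσ₁] at this
          linarith
        · have := hσ.2
          rw [hσ₂] at this
          linarith)
    refine (Real.le_norm_self _).trans (h3.trans ?_)
    refine mul_le_mul_of_nonneg_left ?_ (by positivity)
    rw [abs_of_nonneg (by linarith), hσ₁, hσ₂]
    linarith
  -- assembly
  have hpi : 0 < Real.pi := Real.pi_pos
  calc ∑ ρ ∈ Z, ((P.filter (fun p => |ρ.im - a p| ≤ 1)).card : ℝ) * ‖G ρ‖ ^ 2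
      ≤ ∑ ρ ∈ Z, Real.exp 1 * ∑ p ∈ P, ‖F p ρ‖ ^ 2 := Finset.sum_le_sum h1
    _ = Real.exp 1 * ∑ p ∈ P, ∑ ρ ∈ Z, ‖F p ρ‖ ^ 2 := by
        rw [← Finset.mul_sum, Finset.sum_comm]
    _ ≤ Real.exp 1 * ∑ p ∈ P, (1 / (Real.pi * (r / 2) ^ 2) *
          ∫ σ in σ₁..σ₂, ∫ t in t₁..t₂, ‖F p (σ + t * I)‖ ^ 2) := by
        refine mul_le_mul_of_nonneg_left (Finset.sum_le_sum fun p _ => h2 p) (Real.exp_pos _).le
    _ = Real.exp 1 * (1 / (Real.pi * (r / 2) ^ 2)) *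
          ∑ p ∈ P, ∫ σ in σ₁..σ₂, ∫ t in t₁..t₂, ‖F p (σ + t * I)‖ ^ 2 := by
        rw [← Finset.mul_sum]; ring
    _ ≤ Real.exp 1 * (1 / (Real.pi * (r / 2) ^ 2)) * (Real.exp (9 / 4) * M * (3 / 2)) := by
        refine mul_le_mul_of_nonneg_left houter (by positivity)
    _ = (Real.exp 1 * Real.exp (9 / 4)) * (6 / Real.pi) / r ^ 2 * M := by
        field_simp
        ring
    _ ≤ 2 * Real.exp 4 / r ^ 2 * M := by
        refine mul_le_mul_of_nonneg_right ?_ hM0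
        refine div_le_div_of_nonneg_right ?_ (by positivity)
        rw [← Real.exp_add]
        have h3 : Real.exp (1 + 9 / 4) ≤ Real.exp 4 := by
          rw [Real.exp_le_exp]; norm_num
        have h4 : 6 / Real.pi ≤ 2 := by
          rw [div_le_iff₀ hpi]
          linarith [Real.pi_gt_three]
        calc Real.exp (1 + 9 / 4) * (6 / Real.pi) ≤ Real.exp 4 * 2 :=
              mul_le_mul h3 h4 (by positivity) (Real.exp_pos _).le
          _ = _ := by ring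

end Pool.Agent.Helper73.KC
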