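import Pool.Agent.Helper73.KC.Gauss
import Pool.Agent.Helper73.KC.StepA
import Pool.Agent.Helper73.KC.Pairs

/-! KC-8: additive energy of large values. -/

set_option autoImplicit false
open MeasureTheory Complex

namespace Pool.Agent.Helper73.KC

open Pool.Agent.Helper60.KS (Spaced1 InStrip EZ DP EnergyG)

lemma EZ_eq_sum (Z : Finset ℂ) : EZ Z = ∑ ρ ∈ Z, ((Z ×ˢ (Z ×ˢ Z)).filter
    (fun p : ℂ × (ℂ × ℂ) => |ρ.im - (p.2.1.im + p.2.2.im - p.1.im)| ≤ 1)).card := by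
  classical
  unfold EZ
  rw [Finset.card_filter, Finset.sum_product, Finset.sum_product]
  refine Finset.sum_congr rfl fun x _ => ?_
  rw [Finset.card_filter, Finset.sum_product]
  refine Finset.sum_congr rfl fun y _ => Finset.sum_congr rfl fun z _ => ?_
  have : x.im - (z.1.im + z.2.im - y.im) = x.im + y.im - z.1.im - z.2.im := by ring
  simp only [this]

lemma norm_triple (Z : Finset ℂ) (y : ℝ) :
    ‖∑ p ∈ Z ×ˢ (Z ×ˢ Z), cexp (-(I * ((p.2.1.im + p.2.2.im - p.1.im : ℝ) : ℂ) * (y : ℂ)))‖ =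
      ‖WW Z y‖ ^ 3 := by
  classical
  have h1 : ∑ p ∈ Z ×ˢ (Z ×ˢ Z), cexp (-(I * ((p.2.1.im + p.2.2.im - p.1.im : ℝ) : ℂ) * (y : ℂ))) =
      WW Z y * ((starRingEnd ℂ) (WW Z y) * (starRingEnd ℂ) (WW Z y)) := by
    have hc : (starRingEnd ℂ) (WW Z y) = ∑ ρ ∈ Z, cexp (-(I * (ρ.im : ℝ) * y)) := by
      unfold WW
      rw [map_sum]
      refine Finset.sum_congr rfl fun ρ _ => ?_
      rw [← Complex.exp_conj]
      congr 1
      simp
    rw [hc, Finset.sum_mul_sum, Finset.sum_product]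
    unfold WW
    rw [Finset.sum_mul]
    refine Finset.sum_congr rfl fun x _ => ?_
    rw [Finset.sum_product, Finset.mul_sum]
    refine Finset.sum_congr rfl fun z _ => ?_
    rw [Finset.mul_sum]
    refine Finset.sum_congr rfl fun w _ => ?_
    rw [← Complex.exp_add, ← Complex.exp_add]
    congr 1
    push_cast
    ring
  rw [h1, norm_mul, norm_mul, RCLike.norm_conj]
  ring

lemma DP_differentiable (g : ℕ → ℂ) (Q h : ℕ) : Differentiable ℂ (DP g Q h) := by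
  unfold DP
  refine Differentiable.fun_sum fun n hn => ?_
  have hn0 : (n : ℂ) ≠ 0 := by
    rw [Finset.mem_Ioc] at hn
    exact_mod_cast (by omega : n ≠ 0)
  exact (differentiable_const _).mul (differentiable_id.neg.const_cpow (Or.inl hn0))

lemma DP_eq (g : ℕ → ℂ) (Q h : ℕ) (σ t : ℝ) : DP g Q h (σ + t * I) =
    ∑ j ∈ Finset.Ioc Q (h * Q), (g j * (j : ℂ) ^ (-(σ : ℂ))) * cexp (-(I * t * (Real.log j : ℝ))) := by
  unfold DP
  refine Finset.sum_congr rfl fun n hn => ?_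
  have hn0 : (n : ℂ) ≠ 0 := by
    rw [Finset.mem_Ioc] at hn
    exact_mod_cast (by omega : n ≠ 0)
  rw [mul_assoc]
  congr 1
  rw [Complex.cpow_def_of_ne_zero hn0, Complex.cpow_def_of_ne_zero hn0, ← Complex.exp_add,
    ← Complex.natCast_log]
  congr 1
  ring

lemma coef_bound {g : ℕ → ℂ} {Q h : ℕ} {B b r σ : ℝ} (hh : 1 ≤ h) (hQ : 1 ≤ Q) (hr : r ≤ 1 / 2)
    (hr0 : 0 < r)
    (hb : 0 ≤ b) (hB : 0 ≤ B) (hg : ∀ n, ‖g n‖ ≤ B) (hσ : b - r ≤ σ) {j : ℕ}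
    (hj : j ∈ Finset.Ioc Q (h * Q)) :
    ‖g j * (j : ℂ) ^ (-(σ : ℂ))‖ ≤ B * (h * (Q : ℝ) ^ (-b + r)) := by
  rw [Finset.mem_Ioc] at hj
  have hj0 : 0 < j := by omega
  have cj : (0 : ℝ) < j := by exact_mod_cast hj0
  have cQ : (1 : ℝ) ≤ Q := by exact_mod_cast hQ
  have ch : (1 : ℝ) ≤ h := by exact_mod_cast hh
  rw [norm_mul]
  refine mul_le_mul (hg j) ?_ (norm_nonneg _) hB
  rw [← Complex.ofReal_neg, ← Complex.ofReal_natCast, Complex.norm_cpow_eq_rpow_re_of_pos cj,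
    Complex.ofReal_re]
  have hQb : 0 ≤ (Q : ℝ) ^ (-b + r) := by positivity
  rcases le_or_gt 0 σ with h1 | h1
  · calc (j : ℝ) ^ (-σ) ≤ (Q : ℝ) ^ (-σ) :=
          Real.rpow_le_rpow_of_nonpos (by linarith) (by exact_mod_cast hj.1.le) (by linarith)
      _ ≤ (Q : ℝ) ^ (-b + r) := Real.rpow_le_rpow_of_exponent_le cQ (by linarith)
      _ = 1 * (Q : ℝ) ^ (-b + r) := (one_mul _).symm
      _ ≤ h * (Q : ℝ) ^ (-b + r) := mul_le_mul_of_nonneg_right ch hQb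
  · calc (j : ℝ) ^ (-σ) ≤ ((h : ℝ) * Q) ^ (-σ) := by
          refine Real.rpow_le_rpow cj.le ?_ (by linarith)
          exact_mod_cast hj.2
      _ = (h : ℝ) ^ (-σ) * (Q : ℝ) ^ (-σ) := Real.mul_rpow (by linarith) (by linarith)
      _ ≤ h * (Q : ℝ) ^ (-b + r) := by
          refine mul_le_mul ?_ (Real.rpow_le_rpow_of_exponent_le cQ (by linarith)) (by positivity)
            (by linarith)
          calc (h : ℝ) ^ (-σ) ≤ (h : ℝ) ^ (1 : ℝ) :=
                Real.rpow_le_rpow_of_exponent_le ch (by linarith)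
            _ = h := Real.rpow_one _

theorem energyG_of (h12 : Pool.Agent.Helper10.KSZ.A12') (h13 : Pool.Agent.Helper10.KSZ.A13) :
    EnergyG := by
  classical
  intro h hh
  obtain ⟨C3, hC3, h3⟩ := third_total h13 h hh
  have ch : (1 : ℝ) ≤ h := by exact_mod_cast hh
  refine ⟨2 * Real.exp 4 * 2 * h ^ 2 * C3, by positivity, ?_⟩
  intro Z g Q B V b b' T r hQ hT hr0 hr hb hbb hbb1 hb1 hV hB hg hZ hsp hVG
  have cQ : (1 : ℝ) ≤ Q := by exact_mod_cast hQ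
  have hT0 : 0 ≤ T := by linarith
  set P : Finset (ℂ × (ℂ × ℂ)) := Z ×ˢ (Z ×ˢ Z) with hP
  set a : ℂ × (ℂ × ℂ) → ℝ := fun p => p.2.1.im + p.2.2.im - p.1.im with ha
  set S3 : ℝ := ∑ n ∈ Finset.Ioc Q (h * Q), ∑ n' ∈ Finset.Ioc Q (h * Q),
      ‖WW Z (Real.log n - Real.log n')‖ ^ 3 with hS3
  have hS30 : 0 ≤ S3 := Finset.sum_nonneg fun _ _ => Finset.sum_nonneg fun _ _ => by positivity
  set D : ℝ := B * (h * (Q : ℝ) ^ (-b + r)) with hD
  have hD0 : 0 ≤ D := by positivity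
  have hmean : ∀ σ : ℝ, b - r ≤ σ → ∫ t : ℝ,
      (∑ p ∈ P, Real.exp (-(t - a p) ^ 2)) * ‖DP g Q h (σ + t * I)‖ ^ 2 ≤ 2 * (D ^ 2 * S3) := by
    intro σ hσ
    have h4 := (gauss_mean P a (Finset.Ioc Q (h * Q)) (fun j => g j * (j : ℂ) ^ (-(σ : ℂ)))
      (fun j => Real.log j)).2
    simp only [← DP_eq] at h4
    refine h4.trans ?_
    refine mul_le_mul_of_nonneg_left ?_ (by norm_num)
    rw [hS3, Finset.mul_sum]
    refine Finset.sum_le_sum fun j hj => ?_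
    rw [Finset.mul_sum]
    refine Finset.sum_le_sum fun k hk => ?_
    have h5 := norm_triple Z (Real.log j - Real.log k)
    rw [h5]
    have h6 := coef_bound hh hQ hr hr0 hb hB hg hσ hj
    have h7 := coef_bound hh hQ hr hr0 hb hB hg hσ hk
    refine mul_le_mul_of_nonneg_right ?_ (by positivity)
    calc ‖g j * (j : ℂ) ^ (-(σ : ℂ))‖ * ‖g k * (k : ℂ) ^ (-(σ : ℂ))‖ ≤ D * D :=
          mul_le_mul h6 h7 (norm_nonneg _) hD0
      _ = D ^ 2 := by ring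
  have hint : ∀ σ : ℝ, Integrable (fun t : ℝ =>
      (∑ p ∈ P, Real.exp (-(t - a p) ^ 2)) * ‖DP g Q h (σ + t * I)‖ ^ 2) := by
    intro σ
    have h4 := (gauss_mean P a (Finset.Ioc Q (h * Q)) (fun j => g j * (j : ℂ) ^ (-(σ : ℂ)))
      (fun j => Real.log j)).1
    simp only [← DP_eq] at h4
    exact h4
  have hA := stepA h12 (DP_differentiable g Q h) Z hr0 hr hb hbb hb1 hT0 hZ hsp P a hint
    (M := 2 * (D ^ 2 * S3)) (fun σ h1 _ => hmean σ h1)
  -- lower bound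
  have hlow : (EZ Z : ℝ) * V ^ 2 ≤ ∑ ρ ∈ Z,
      ((P.filter (fun p => |ρ.im - a p| ≤ 1)).card : ℝ) * ‖DP g Q h ρ‖ ^ 2 := by
    rw [EZ_eq_sum]
    push_cast
    rw [Finset.sum_mul]
    refine Finset.sum_le_sum fun ρ hρ => ?_
    refine mul_le_mul_of_nonneg_left (pow_le_pow_left₀ hV.le (hVG ρ hρ) 2) (by positivity)
  have hS := h3 Z Q T hQ hT (fun ρ hρ => (hZ ρ hρ).2.2) hsp
  set E : ℝ := (EZ Z : ℝ) with hE
  have hE0 : 0 ≤ E := by positivity
  set R : ℝ := (Q : ℝ) ^ 2 * Real.sqrt Z.card + Q * Z.card * Real.sqrt T with hR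
  have hR0 : 0 ≤ R := by positivity
  have hlogQ : 0 ≤ Real.log Q := Real.log_nonneg cQ
  have hDsq : D ^ 2 = B ^ 2 * h ^ 2 * (Q : ℝ) ^ (-2 * b + 2 * r) := by
    rw [hD, mul_pow, mul_pow, ← Real.rpow_natCast ((Q : ℝ) ^ (-b + r)) 2, ← Real.rpow_mul (by linarith)]
    have : (-b + r) * ((2 : ℕ) : ℝ) = -2 * b + 2 * r := by push_cast; ring
    rw [this]
    ring
  have hfin : E * V ^ 2 ≤ (2 * Real.exp 4 * 2 * h ^ 2 * C3 * B ^ 2 / r ^ 2 *
      (Q : ℝ) ^ (-2 * b + 2 * r) * (1 + Real.log Q) * R) * Real.sqrt E := by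
    refine hlow.trans (hA.trans ?_)
    calc 2 * Real.exp 4 / r ^ 2 * (2 * (D ^ 2 * S3)) ≤
        2 * Real.exp 4 / r ^ 2 * (2 * (D ^ 2 * (C3 * (1 + Real.log Q) * Real.sqrt E * R))) := by
          gcongr
      _ = _ := by
          rw [hDsq]
          ring
  rcases eq_or_lt_of_le hE0 with hz | hz
  · rw [← hz, Real.sqrt_zero, zero_mul]
    positivity
  · have hsE : 0 < Real.sqrt E := Real.sqrt_pos.2 hz
    have h8 : Real.sqrt E * (Real.sqrt E * V ^ 2) = E * V ^ 2 := by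
      rw [← mul_assoc, Real.mul_self_sqrt hE0]
    refine le_of_mul_le_mul_left ?_ hsE
    rw [h8]
    refine hfin.trans (le_of_eq ?_)
    ring

end Pool.Agent.Helper73.KC
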