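import Mathlib

/-! KC-8, part 1: Gaussian mean value of a Dirichlet polynomial against a family of centres. -/

set_option autoImplicit false
open MeasureTheory Complex

namespace Pool.Agent.Helper73.KC

/-- the Gaussian integral with centre `a` and frequency `y` -/
lemma gauss_int (a y : ℝ) :
    Integrable (fun t : ℝ => cexp (-((t - a : ℝ) : ℂ) ^ 2) * cexp (-(I * t * y))) ∧
    ∫ t : ℝ, cexp (-((t - a : ℝ) : ℂ) ^ 2) * cexp (-(I * t * y)) =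
      (Real.pi / (-(-1 : ℂ))) ^ (1 / 2 : ℂ) * cexp (-(y ^ 2 / 4 : ℂ)) * cexp (-(I * a * y)) := by
  have h1 : (fun t : ℝ => cexp (-((t - a : ℝ) : ℂ) ^ 2) * cexp (-(I * t * y))) =
      fun t : ℝ => cexp ((-1 : ℂ) * (t : ℂ) ^ 2 + (2 * a - I * y) * t + (-(a : ℂ) ^ 2)) := by
    funext t
    rw [← Complex.exp_add]
    congr 1
    push_cast
    ring
  have hb : ((-1 : ℂ)).re < 0 := by norm_num
  refine ⟨?_, ?_⟩
  · rw [h1]
    exact integrable_cexp_quadratic' hb _ _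
  · rw [h1, integral_cexp_quadratic hb, mul_assoc, ← Complex.exp_add]
    congr 2
    have := Complex.I_sq
    ring_nf
    rw [this]
    ring

lemma norm_gauss_const : ‖((Real.pi : ℂ) / (-(-1 : ℂ))) ^ (1 / 2 : ℂ)‖ ≤ 2 := by
  have h1 : ((Real.pi : ℂ) / (-(-1 : ℂ))) = ((Real.pi : ℝ) : ℂ) := by simp
  rw [h1, Complex.norm_cpow_eq_rpow_re_of_pos Real.pi_pos]
  have h2 : (1 / 2 : ℂ).re = (1 / 2 : ℝ) := by norm_num
  rw [h2]
  calc Real.pi ^ (1 / 2 : ℝ) ≤ (4 : ℝ) ^ (1 / 2 : ℝ) :=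
        Real.rpow_le_rpow Real.pi_pos.le (by linarith [Real.pi_lt_four]) (by norm_num)
    _ = 2 := by
      rw [← Real.sqrt_eq_rpow]
      rw [show (4 : ℝ) = 2 ^ 2 by norm_num]
      exact Real.sqrt_sq (by norm_num)

variable {κ ι : Type*}

/-- pointwise expansion -/
lemma expand (P : Finset κ) (a : κ → ℝ) (S : Finset ι) (c : ι → ℂ) (y : ι → ℝ) (t : ℝ) :
    (((∑ p ∈ P, Real.exp (-(t - a p) ^ 2)) *
      ‖∑ j ∈ S, c j * cexp (-(I * t * y j))‖ ^ 2 : ℝ) : ℂ) =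
    ∑ j ∈ S, ∑ k ∈ S, ∑ p ∈ P, c j * (starRingEnd ℂ) (c k) *
      (cexp (-((t - a p : ℝ) : ℂ) ^ 2) * cexp (-(I * t * ((y j - y k : ℝ) : ℂ)))) := by
  have h1 : ((‖∑ j ∈ S, c j * cexp (-(I * t * y j))‖ ^ 2 : ℝ) : ℂ) =
      (∑ j ∈ S, c j * cexp (-(I * t * y j))) * (starRingEnd ℂ) (∑ j ∈ S, c j * cexp (-(I * t * y j))) := by
    rw [Complex.mul_conj, Complex.normSq_eq_norm_sq]
  have h2 : ∀ j, (starRingEnd ℂ) (c j * cexp (-(I * t * y j))) =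
      (starRingEnd ℂ) (c j) * cexp (I * t * y j) := by
    intro j
    rw [map_mul, ← Complex.exp_conj]
    congr 2
    simp
  push_cast
  rw [show (((‖∑ j ∈ S, c j * cexp (-(I * t * y j))‖ : ℝ) : ℂ)) ^ 2 =
    ((‖∑ j ∈ S, c j * cexp (-(I * t * y j))‖ ^ 2 : ℝ) : ℂ) by push_cast; rfl, h1, map_sum,
    Finset.sum_mul_sum, Finset.mul_sum]
  refine Finset.sum_congr rfl fun j _ => ?_
  rw [Finset.mul_sum]
  refine Finset.sum_congr rfl fun k _ => ?_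
  rw [Finset.sum_mul]
  refine Finset.sum_congr rfl fun p _ => ?_
  rw [h2]
  have h3 : cexp (-(I * t * ((y j : ℂ) - (y k : ℂ)))) =
      cexp (-(I * t * y j)) * cexp (I * t * y k) := by
    rw [← Complex.exp_add]
    congr 1
    ring
  rw [h3]
  ring

/-- mean value -/
theorem gauss_mean (P : Finset κ) (a : κ → ℝ) (S : Finset ι) (c : ι → ℂ) (y : ι → ℝ) :
    Integrable (fun t : ℝ => (∑ p ∈ P, Real.exp (-(t - a p) ^ 2)) *
      ‖∑ j ∈ S, c j * cexp (-(I * t * y j))‖ ^ 2) ∧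
    ∫ t : ℝ, (∑ p ∈ P, Real.exp (-(t - a p) ^ 2)) *
      ‖∑ j ∈ S, c j * cexp (-(I * t * y j))‖ ^ 2 ≤
    2 * ∑ j ∈ S, ∑ k ∈ S, ‖c j‖ * ‖c k‖ *
      ‖∑ p ∈ P, cexp (-(I * a p * ((y j - y k : ℝ) : ℂ)))‖ := by
  set f : ℝ → ℝ := fun t => (∑ p ∈ P, Real.exp (-(t - a p) ^ 2)) *
      ‖∑ j ∈ S, c j * cexp (-(I * t * y j))‖ ^ 2 with hf
  have hint : Integrable (fun t : ℝ => ((f t : ℝ) : ℂ)) := by
    have : (fun t : ℝ => ((f t : ℝ) : ℂ)) = fun t : ℝ =>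
        ∑ j ∈ S, ∑ k ∈ S, ∑ p ∈ P, c j * (starRingEnd ℂ) (c k) *
        (cexp (-((t - a p : ℝ) : ℂ) ^ 2) * cexp (-(I * t * ((y j - y k : ℝ) : ℂ)))) := by
      funext t
      exact expand P a S c y t
    rw [this]
    refine integrable_finsetSum _ fun j _ => integrable_finsetSum _ fun k _ =>
      integrable_finsetSum _ fun p _ => ?_
    exact (gauss_int (a p) (y j - y k)).1.const_mul _
  have hfint : Integrable f := by
    have := hint.re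
    simpa using this
  refine ⟨hfint, ?_⟩
  have h1 : ((∫ t, f t : ℝ) : ℂ) = ∑ j ∈ S, ∑ k ∈ S, ∑ p ∈ P, c j * (starRingEnd ℂ) (c k) *
      ((Real.pi / (-(-1 : ℂ))) ^ (1 / 2 : ℂ) * cexp (-(((y j - y k : ℝ) : ℂ) ^ 2 / 4 : ℂ)) *
        cexp (-(I * a p * ((y j - y k : ℝ) : ℂ)))) := by
    rw [← integral_complex_ofReal]
    have : (fun t : ℝ => ((f t : ℝ) : ℂ)) = fun t : ℝ =>
        ∑ j ∈ S, ∑ k ∈ S, ∑ p ∈ P, c j * (starRingEnd ℂ) (c k) *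
        (cexp (-((t - a p : ℝ) : ℂ) ^ 2) * cexp (-(I * t * ((y j - y k : ℝ) : ℂ)))) := by
      funext t
      exact expand P a S c y t
    rw [this]
    rw [integral_finsetSum _ fun j _ => ?_]
    · refine Finset.sum_congr rfl fun j _ => ?_
      rw [integral_finsetSum _ fun k _ => ?_]
      · refine Finset.sum_congr rfl fun k _ => ?_
        rw [integral_finsetSum _ fun p _ => ?_]
        · refine Finset.sum_congr rfl fun p _ => ?_
          rw [integral_const_mul, (gauss_int (a p) (y j - y k)).2]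
        · exact (gauss_int (a p) (y j - y k)).1.const_mul _
      · exact integrable_finsetSum _ fun p _ => (gauss_int (a p) (y j - y k)).1.const_mul _
    · exact integrable_finsetSum _ fun k _ =>
        integrable_finsetSum _ fun p _ => (gauss_int (a p) (y j - y k)).1.const_mul _
  have h2 : ∫ t, f t ≤ ‖((∫ t, f t : ℝ) : ℂ)‖ := by
    rw [Complex.norm_real]
    exact le_abs_self _
  refine h2.trans ?_
  rw [h1, Finset.mul_sum]
  refine (norm_sum_le _ _).trans (Finset.sum_le_sum fun j _ => ?_)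
  rw [Finset.mul_sum]
  refine (norm_sum_le _ _).trans (Finset.sum_le_sum fun k _ => ?_)
  have h3 : ∑ p ∈ P, c j * (starRingEnd ℂ) (c k) *
      ((Real.pi / (-(-1 : ℂ))) ^ (1 / 2 : ℂ) * cexp (-(((y j - y k : ℝ) : ℂ) ^ 2 / 4 : ℂ)) *
        cexp (-(I * a p * ((y j - y k : ℝ) : ℂ)))) =
      (c j * (starRingEnd ℂ) (c k)) * ((Real.pi / (-(-1 : ℂ))) ^ (1 / 2 : ℂ) *
        cexp (-(((y j - y k : ℝ) : ℂ) ^ 2 / 4 : ℂ))) *
        ∑ p ∈ P, cexp (-(I * a p * ((y j - y k : ℝ) : ℂ))) := by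
    rw [Finset.mul_sum]
    refine Finset.sum_congr rfl fun p _ => ?_
    ring
  rw [h3, norm_mul, norm_mul, norm_mul, norm_mul]
  have h4 : ‖(starRingEnd ℂ) (c k)‖ = ‖c k‖ := RCLike.norm_conj _
  have h5 : ‖cexp (-(((y j - y k : ℝ) : ℂ) ^ 2 / 4 : ℂ))‖ ≤ 1 := by
    rw [Complex.norm_exp]
    have : (-(((y j - y k : ℝ) : ℂ) ^ 2 / 4 : ℂ)).re = -((y j - y k) ^ 2 / 4) := by
      have : (-(((y j - y k : ℝ) : ℂ) ^ 2 / 4 : ℂ)) = ((-((y j - y k) ^ 2 / 4) : ℝ) : ℂ) := by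
        push_cast; ring
      rw [this, Complex.ofReal_re]
    rw [this, Real.exp_le_one_iff]
    nlinarith [sq_nonneg (y j - y k)]
  rw [h4]
  have h6 := norm_gauss_const
  have h7 : ‖((Real.pi : ℂ) / (-(-1 : ℂ))) ^ (1 / 2 : ℂ)‖ *
      ‖cexp (-(((y j - y k : ℝ) : ℂ) ^ 2 / 4 : ℂ))‖ ≤ 2 := by
    calc _ ≤ (2 : ℝ) * 1 := mul_le_mul h6 h5 (norm_nonneg _) (by norm_num)
      _ = 2 := by norm_num
  calc ‖c j‖ * ‖c k‖ * (‖((Real.pi : ℂ) / (-(-1 : ℂ))) ^ (1 / 2 : ℂ)‖ *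
      ‖cexp (-(((y j - y k : ℝ) : ℂ) ^ 2 / 4 : ℂ))‖) *
      ‖∑ p ∈ P, cexp (-(I * a p * ((y j - y k : ℝ) : ℂ)))‖ ≤
      ‖c j‖ * ‖c k‖ * 2 * ‖∑ p ∈ P, cexp (-(I * a p * ((y j - y k : ℝ) : ℂ)))‖ := by
        gcongr
    _ = _ := by ring

end Pool.Agent.Helper73.KC
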