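import Pool.Agent.Helper10.KSZ.St
import Pool.Agent.Helper60.KS.St

/-! KC-8, part 3: mean values of exponential sums over zeros at well spaced real points, and the decomposition of
pairs `(n, n')` according to their reduced fraction. -/

set_option autoImplicit false
open MeasureTheory Complex

namespace Pool.Agent.Helper73.KC

open Pool.Agent.Helper60.KS (Spaced1 InStrip EZ)

/-- large sieve at well spaced real points -/
theorem lsum (h13 : Pool.Agent.Helper10.KSZ.A13) : ∃ C : ℝ, 0 < C ∧ ∀ (ι : Type) (S : Finset ι)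
    (ω : ι → ℝ) (Y : Finset ℝ) (L Ω δ : ℝ), 1 ≤ L → 1 ≤ Ω → 0 < δ → (∀ j ∈ S, |ω j| ≤ Ω) →
    (∀ y ∈ Y, |y| ≤ L) → (∀ y ∈ Y, ∀ y' ∈ Y, y ≠ y' → δ ≤ |y - y'|) →
    ∑ y ∈ Y, ‖∑ j ∈ S, cexp (I * ω j * y)‖ ^ 2 ≤
      C * L * (Ω + 1 / δ) * (((S ×ˢ S).filter (fun p => |ω p.1 - ω p.2| ≤ 1)).card : ℝ) := by
  classical
  obtain ⟨C, hC, h⟩ := h13
  refine ⟨6 * C * Real.exp 2, by positivity, fun ι S ω Y L Ω δ hL hΩ hδ hω hY hsp => ?_⟩
  set r : ℝ := 1 / (Ω + 3 / δ) with hr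
  have hden : 0 < Ω + 3 / δ := by positivity
  have hr0 : 0 < r := by rw [hr]; positivity
  have hr1 : r * Ω ≤ 1 := by
    rw [hr, one_div, inv_mul_le_iff₀ hden]
    have : 0 < 3 / δ := by positivity
    linarith
  have hr1' : r ≤ 1 := by nlinarith
  have hr2 : 2 * r < δ := by
    have h1 : r < 1 / (3 / δ) := by
      rw [hr]
      exact one_div_lt_one_div_of_lt (by positivity) (by linarith)
    rw [one_div_div] at h1
    linarith
  set N : ℝ := (((S ×ˢ S).filter (fun p => |ω p.1 - ω p.2| ≤ 1)).card : ℝ) with hN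
  have h1 := h ι S (fun _ => 1) ω (Y.image (fun y : ℝ => I * (y : ℂ))) r 0 0 L (Real.exp 2 * N) hr0 hr1'
    le_rfl hL ?_ ?_ ?_
  · have hinj : Set.InjOn (fun y : ℝ => I * (y : ℂ)) (Y : Set ℝ) := by
      intro x _ y _ hxy
      have := mul_left_cancel₀ Complex.I_ne_zero hxy
      exact_mod_cast this
    rw [Finset.sum_image hinj] at h1
    have h2 : ∀ y : ℝ, ‖∑ j ∈ S, (1 : ℂ) * cexp ((ω j : ℂ) * (I * (y : ℂ)))‖ ^ 2 =
        ‖∑ j ∈ S, cexp (I * ω j * y)‖ ^ 2 := by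
      intro y
      congr 2
      refine Finset.sum_congr rfl fun j _ => ?_
      rw [one_mul]
      congr 1
      ring
    simp only [h2] at h1
    refine h1.trans ?_
    have h3 : (0 - 0 + 2 * r) / r ^ 2 = 2 / r := by
      field_simp
      ring
    rw [h3]
    have h4 : 2 / r = 2 * (Ω + 3 / δ) := by
      rw [hr]
      field_simp
    rw [h4]
    have h5 : 2 * (Ω + 3 / δ) ≤ 6 * (Ω + 1 / δ) := by
      have : 3 / δ = 3 * (1 / δ) := by ring
      rw [this]
      have : 0 < 1 / δ := by positivity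
      linarith
    have hN0 : 0 ≤ N := by positivity
    calc C * (2 * (Ω + 3 / δ)) * L * (Real.exp 2 * N) ≤ C * (6 * (Ω + 1 / δ)) * L * (Real.exp 2 * N) := by
          have hL0 : 0 ≤ L := by linarith
          gcongr
      _ = _ := by ring
  · intro z hz w hw hzw
    obtain ⟨x, hx, rfl⟩ := Finset.mem_image.1 hz
    obtain ⟨y, hy, rfl⟩ := Finset.mem_image.1 hw
    have hxy : x ≠ y := by
      rintro rfl
      exact hzw rfl
    have h3 := hsp x hx y hy hxy
    rw [Complex.dist_eq, ← mul_sub, norm_mul, Complex.norm_I, one_mul, ← Complex.ofReal_sub,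
      Complex.norm_real, Real.norm_eq_abs]
    linarith
  · intro z hz
    obtain ⟨x, hx, rfl⟩ := Finset.mem_image.1 hz
    have := hY x hx
    simp [this]
  · intro σ hs1 hs2
    have hs : |σ| ≤ r := by
      rw [abs_le]
      constructor <;> linarith
    have h3 : ∀ j ∈ S, ∀ k ∈ S, (if |ω j - ω k| ≤ 1 / L then
        ‖(1 : ℂ)‖ * ‖(1 : ℂ)‖ * Real.exp (σ * (ω j + ω k)) else 0) ≤
        Real.exp 2 * (if |ω j - ω k| ≤ 1 then 1 else 0) := by
      intro j hj k hk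
      by_cases hjk : |ω j - ω k| ≤ 1 / L
      · have hjk' : |ω j - ω k| ≤ 1 := hjk.trans (by
          rw [div_le_one (by linarith)]
          exact hL)
        rw [if_pos hjk, if_pos hjk', norm_one, one_mul, one_mul, mul_one, Real.exp_le_exp]
        have h4 : |ω j + ω k| ≤ 2 * Ω := by
          refine (abs_add_le _ _).trans ?_
          linarith [hω j hj, hω k hk]
        calc σ * (ω j + ω k) ≤ |σ * (ω j + ω k)| := le_abs_self _
          _ = |σ| * |ω j + ω k| := abs_mul _ _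
          _ ≤ r * (2 * Ω) := mul_le_mul hs h4 (abs_nonneg _) hr0.le
          _ ≤ 2 := by nlinarith
      · rw [if_neg hjk]
        have := Real.exp_pos 2
        split_ifs <;> simp [this.le]
    calc ∑ j ∈ S, ∑ k ∈ S, (if |ω j - ω k| ≤ 1 / L then
        ‖(1 : ℂ)‖ * ‖(1 : ℂ)‖ * Real.exp (σ * (ω j + ω k)) else 0) ≤
        ∑ j ∈ S, ∑ k ∈ S, Real.exp 2 * (if |ω j - ω k| ≤ 1 then 1 else 0) :=
          Finset.sum_le_sum fun j hj => Finset.sum_le_sum fun k hk => h3 j hj k hk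
      _ = Real.exp 2 * N := by
          simp only [← Finset.mul_sum]
          congr 1
          rw [hN, Finset.card_filter]
          push_cast
          rw [Finset.sum_product]

/-- a spaced set has at most three points at distance at most one from a given one -/
lemma near_card {Z : Finset ℂ} (hsp : Spaced1 Z) (x : ℝ) :
    (Z.filter (fun ρ => |x - ρ.im| ≤ 1)).card ≤ 3 := by
  classical
  have h1 : (Z.filter (fun ρ => |x - ρ.im| ≤ 1)).card ≤ (Finset.Icc (⌊x⌋ - 1) (⌊x⌋ + 1)).card := by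
    refine Finset.card_le_card_of_injOn (fun ρ => ⌊ρ.im⌋) ?_ ?_
    · intro ρ hρ
      have h2 := (Finset.mem_filter.1 (by exact_mod_cast hρ)).2
      rw [abs_le] at h2
      simp only [Finset.coe_Icc, Set.mem_Icc]
      constructor
      · rw [Int.le_floor]
        push_cast
        linarith [Int.floor_le x, h2.2]
      · have h3 : ⌊ρ.im⌋ ≤ ⌊x + 1⌋ := Int.floor_le_floor (by linarith [h2.1])
        simpa using h3
    · intro ρ hρ ρ' hρ' heq
      by_contra hne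
      have h2 := (Finset.mem_filter.1 (by exact_mod_cast hρ)).1
      have h3 := (Finset.mem_filter.1 (by exact_mod_cast hρ')).1
      have h4 := hsp ρ h2 ρ' h3 hne
      have h5 := Int.abs_sub_lt_one_of_floor_eq_floor heq
      linarith
  refine h1.trans (le_of_eq ?_)
  rw [Int.card_Icc]
  have : ⌊x⌋ + 1 + 1 - (⌊x⌋ - 1) = 3 := by ring
  rw [this]
  rfl

lemma pair_card {Z : Finset ℂ} (hsp : Spaced1 Z) :
    ((Z ×ˢ Z).filter (fun p => |p.1.im - p.2.im| ≤ 1)).card ≤ 3 * Z.card := by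
  classical
  rw [Finset.card_filter, Finset.sum_product]
  calc ∑ x ∈ Z, ∑ y ∈ Z, (if |x.im - y.im| ≤ 1 then 1 else 0) ≤ ∑ x ∈ Z, 3 := by
        refine Finset.sum_le_sum fun x _ => ?_
        rw [← Finset.card_filter]
        exact near_card hsp x.im
    _ = 3 * Z.card := by simp [mul_comm]

/-- the sum over the heights -/
noncomputable def WW (Z : Finset ℂ) (y : ℝ) : ℂ := ∑ ρ ∈ Z, cexp (I * (ρ.im : ℝ) * y)

lemma norm_WW_le (Z : Finset ℂ) (y : ℝ) : ‖WW Z y‖ ≤ Z.card := by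
  unfold WW
  refine (norm_sum_le _ _).trans ?_
  have : ∀ ρ ∈ Z, ‖cexp (I * (ρ.im : ℝ) * y)‖ = 1 := by
    intro ρ _
    rw [Complex.norm_exp]
    simp
  rw [Finset.sum_congr rfl this]
  simp

lemma WW_sq (Z : Finset ℂ) (y : ℝ) : WW Z y ^ 2 =
    ∑ p ∈ Z ×ˢ Z, cexp (I * ((p.1.im + p.2.im : ℝ) : ℂ) * y) := by
  unfold WW
  rw [sq, Finset.sum_mul_sum, Finset.sum_product]
  refine Finset.sum_congr rfl fun x _ => Finset.sum_congr rfl fun z _ => ?_
  rw [← Complex.exp_add]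
  congr 1
  push_cast
  ring

/-- second and fourth moments, the main estimate at one scale -/
theorem third_moment (h13 : Pool.Agent.Helper10.KSZ.A13) : ∃ C : ℝ, 0 < C ∧ ∀ (Z : Finset ℂ)
    (Y : Finset ℝ) (L T : ℝ) (i : ℕ), 1 ≤ L → 1 ≤ T → (∀ ρ ∈ Z, |ρ.im| ≤ T) → Spaced1 Z →
    (∀ y ∈ Y, |y| ≤ L) → (∀ y ∈ Y, ∀ y' ∈ Y, y ≠ y' → 1 / (4 * 4 ^ i : ℝ) ≤ |y - y'|) →
    (Y.card : ℝ) ≤ 4 * 4 ^ i →
    ∑ y ∈ Y, ‖WW Z y‖ ^ 3 ≤ C * L * (4 ^ i * Real.sqrt (Z.card * EZ Z) +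
      2 ^ i * Z.card * Real.sqrt (T * EZ Z)) := by
  classical
  obtain ⟨C, hC, h⟩ := lsum h13
  refine ⟨24 * (1 + C), by positivity, fun Z Y L T i hL hT hZ hsp hYL hYs hYc => ?_⟩
  set n : ℝ := (Z.card : ℝ) with hn
  set E : ℝ := (EZ Z : ℝ) with hE
  have hn0 : 0 ≤ n := by positivity
  have hE0 : 0 ≤ E := by positivity
  have hL0 : 0 ≤ L := by linarith
  set A : ℝ := (4 : ℝ) ^ i with hA
  have hA1 : 1 ≤ A := one_le_pow₀ (by norm_num)
  have hδ : (0 : ℝ) < 1 / (4 * A) := by positivity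
  -- second moment
  have hS2 : ∑ y ∈ Y, ‖WW Z y‖ ^ 2 ≤ C * L * (T + 4 * A) * (3 * n) := by
    have h1 := h ℂ Z (fun ρ => ρ.im) Y L T (1 / (4 * A)) hL hT hδ hZ hYL hYs
    rw [one_div_one_div] at h1
    refine h1.trans ?_
    refine mul_le_mul_of_nonneg_left ?_ (by positivity)
    rw [hn]
    exact_mod_cast pair_card hsp
  have hS2' : ∑ y ∈ Y, ‖WW Z y‖ ^ 2 ≤ 4 * A * n ^ 2 := by
    calc ∑ y ∈ Y, ‖WW Z y‖ ^ 2 ≤ ∑ y ∈ Y, n ^ 2 :=
          Finset.sum_le_sum fun y _ => pow_le_pow_left₀ (norm_nonneg _) (norm_WW_le Z y) 2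
      _ = Y.card * n ^ 2 := by rw [Finset.sum_const, nsmul_eq_mul]
      _ ≤ 4 * A * n ^ 2 := mul_le_mul_of_nonneg_right hYc (by positivity)
  -- fourth moment
  have hS4 : ∑ y ∈ Y, (‖WW Z y‖ ^ 2) ^ 2 ≤ C * L * (2 * T + 4 * A) * E := by
    have h1 := h (ℂ × ℂ) (Z ×ˢ Z) (fun p => p.1.im + p.2.im) Y L (2 * T) (1 / (4 * A)) hL
      (by linarith) hδ ?_ hYL hYs
    · rw [one_div_one_div] at h1
      have h2 : ∀ y : ℝ, ‖∑ j ∈ Z ×ˢ Z, cexp (I * ((j.1.im + j.2.im : ℝ) : ℂ) * y)‖ ^ 2 =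
          (‖WW Z y‖ ^ 2) ^ 2 := by
        intro y
        rw [← WW_sq, norm_pow]
      simp only [h2] at h1
      refine h1.trans (le_of_eq ?_)
      congr 1
      rw [hE, EZ]
      congr 2
      refine Finset.filter_congr fun p _ => ?_
      rw [show p.1.1.im + p.1.2.im - (p.2.1.im + p.2.2.im) =
        p.1.1.im + p.1.2.im - p.2.1.im - p.2.2.im by ring]
    · intro p hp
      rw [Finset.mem_product] at hp
      refine (abs_add_le _ _).trans ?_
      linarith [hZ _ hp.1, hZ _ hp.2]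
  -- Cauchy-Schwarz
  have hCS : (∑ y ∈ Y, ‖WW Z y‖ ^ 3) ^ 2 ≤ (∑ y ∈ Y, ‖WW Z y‖ ^ 2) * ∑ y ∈ Y, (‖WW Z y‖ ^ 2) ^ 2 := by
    have h1 := Finset.sum_mul_sq_le_sq_mul_sq Y (fun y => ‖WW Z y‖) (fun y => ‖WW Z y‖ ^ 2)
    refine le_trans (le_of_eq ?_) h1
    congr 1
    refine Finset.sum_congr rfl fun y _ => ?_
    ring
  have hS4n : 0 ≤ ∑ y ∈ Y, (‖WW Z y‖ ^ 2) ^ 2 := Finset.sum_nonneg fun y _ => by positivity
  have hS2n : 0 ≤ ∑ y ∈ Y, ‖WW Z y‖ ^ 2 := Finset.sum_nonneg fun y _ => by positivity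
  have hpow : (2 : ℝ) ^ i * 2 ^ i = A := by
    rw [hA, ← mul_pow]; norm_num
  have hpos2 : (0 : ℝ) < 2 ^ i := by positivity
  have hterm1 : 0 ≤ A * Real.sqrt (n * E) := by positivity
  have hterm2 : 0 ≤ 2 ^ i * n * Real.sqrt (T * E) := by positivity
  have hK0 : 0 ≤ 24 * (1 + C) * L := by positivity
  by_cases hTA : T ≤ A
  · -- large scale
    have h1 : (∑ y ∈ Y, ‖WW Z y‖ ^ 3) ^ 2 ≤ (24 * (1 + C) * L * (A * Real.sqrt (n * E))) ^ 2 := by
      refine hCS.trans ?_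
      calc (∑ y ∈ Y, ‖WW Z y‖ ^ 2) * ∑ y ∈ Y, (‖WW Z y‖ ^ 2) ^ 2 ≤
          (C * L * (5 * A) * (3 * n)) * (C * L * (6 * A) * E) := by
            refine mul_le_mul (hS2.trans ?_) (hS4.trans ?_) hS4n (by positivity)
            · gcongr
              linarith
            · gcongr
              linarith
        _ = (C ^ 2 * 90) * (L ^ 2 * A ^ 2 * (n * E)) := by ring
        _ ≤ (576 * (1 + C) ^ 2) * (L ^ 2 * A ^ 2 * (n * E)) := by
            refine mul_le_mul_of_nonneg_right ?_ (by positivity)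
            nlinarith
        _ = (24 * (1 + C) * L * (A * Real.sqrt (n * E))) ^ 2 := by
            rw [mul_pow, mul_pow, mul_pow A, Real.sq_sqrt (by positivity)]
            ring
    have h2 := abs_le_of_sq_le_sq h1 (by positivity)
    refine (le_abs_self _).trans (h2.trans ?_)
    refine mul_le_mul_of_nonneg_left ?_ hK0
    linarith
  · push Not at hTA
    have h1 : (∑ y ∈ Y, ‖WW Z y‖ ^ 3) ^ 2 ≤ (24 * (1 + C) * L * (2 ^ i * n * Real.sqrt (T * E))) ^ 2 := by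
      refine hCS.trans ?_
      calc (∑ y ∈ Y, ‖WW Z y‖ ^ 2) * ∑ y ∈ Y, (‖WW Z y‖ ^ 2) ^ 2 ≤
          (4 * A * n ^ 2) * (C * L * (6 * T) * E) := by
            refine mul_le_mul hS2' (hS4.trans ?_) hS4n (by positivity)
            gcongr
            linarith
        _ = (24 * C * L) * (A * n ^ 2 * (T * E)) := by ring
        _ ≤ (24 * (1 + C) * L) ^ 2 * (A * n ^ 2 * (T * E)) := by
            refine mul_le_mul_of_nonneg_right ?_ (by positivity)
            have h3 : 1 ≤ 24 * (1 + C) * L := by nlinarith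
            have h4 : 24 * C * L ≤ 24 * (1 + C) * L := by nlinarith
            nlinarith
        _ = (24 * (1 + C) * L * (2 ^ i * n * Real.sqrt (T * E))) ^ 2 := by
            have hs : Real.sqrt (T * E) ^ 2 = T * E := Real.sq_sqrt (by positivity)
            have h5 : (24 * (1 + C) * L * (2 ^ i * n * Real.sqrt (T * E))) ^ 2 =
                (24 * (1 + C) * L) ^ 2 * (((2 : ℝ) ^ i * 2 ^ i) * n ^ 2 * Real.sqrt (T * E) ^ 2) := by
              ring
            rw [h5, hs, hpow]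
    have h2 := abs_le_of_sq_le_sq h1 (by positivity)
    refine (le_abs_self _).trans (h2.trans ?_)
    refine mul_le_mul_of_nonneg_left ?_ hK0
    linarith

end Pool.Agent.Helper73.KC
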